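import Mathlib
import Pool.Agent.Helper292.ForceCH

/-!
# The principle of `σ`-closed lifting

`SigmaLifting` is a combinatorial statement about subsets of `ω₁`; `LiftingHolds P` is the same
statement about the extension by the forcing notion `P`, written in the forcing language of
`Pool/Agent/Helper292/ForceCH.lean`.
-/

set_option autoImplicit false

namespace Pool.Agent.L5helper89.CPS

open Pool.Agent.Helper292.ForceCH (Om fnot fand fall fimp fiff fex fground meets IsFun)

/-- `a` and `a'` have the same elements below `α`. -/
def EqBelow (α : Om) (a a' : Set Om) : Prop := ∀ x < α, (x ∈ a ↔ x ∈ a')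

/-- `b` and `b'` have the same values below `α`. -/
def EqBelowFun (α : Om) (b b' : Om → Set ℕ) : Prop := ∀ x < α, b x = b' x

/-- The initial segments of length `α` of `a ⊆ ω₁` and `b : ω₁ → 𝒫(ω)` are related by `R`: there
are `a'`, `b'` with the same initial segments of length `α` and `R α a' b'`. -/
def Related (R : Om → Set Om → (Om → Set ℕ) → Prop) (α : Om) (a : Set Om) (b : Om → Set ℕ) :
    Prop :=
  ∃ a' b', EqBelow α a a' ∧ EqBelowFun α b b' ∧ R α a' b'

/-- A preordered set `Q`; its elements `d` carry a countable ordinal `l d` and the initial segments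
of length `l d` of `p d ⊆ ω₁` and of `s d : ω₁ → 𝒫(ω)`, and these get longer when `d` gets
smaller. -/
structure Sys where
  Q : Type
  ord : Preorder Q
  l : Q → Om
  p : Q → Set Om
  s : Q → Om → Set ℕ
  mono : ∀ d d' : Q, d' ≤ d → l d ≤ l d' ∧ EqBelow (l d) (p d) (p d') ∧
    EqBelowFun (l d) (s d) (s d')

instance (S : Sys) : Preorder S.Q := S.ord

/-- The principle of `σ`-closed lifting. Let `R` be a relation between initial segments (of the
same countable length) of subsets `a` of `ω₁` and of maps `b : ω₁ → 𝒫(ω)`. Suppose that for every
`a` there is a `b` such that all initial segments of `(a, b)` are related by `R`. Then there are a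
preordered set `Q` as in `Sys` and a nonempty `D ⊆ Q` such that: the segments carried by the
elements of `D` are related by `R`; each `d ∈ D` has, for every longer initial segment of a subset
`a` of `ω₁` extending the one carried by `d`, an extension in `D` which carries a segment
extending it; each decreasing sequence in `D` has a lower bound in `D` whose length is the supremum
of the lengths. -/
def SigmaLifting : Prop :=
  ∀ R : Om → Set Om → (Om → Set ℕ) → Prop,
    (∀ a : Set Om, ∃ b : Om → Set ℕ, ∀ α, Related R α a b) →
    ∃ (S : Sys) (D : Set S.Q), (∃ d, d ∈ D) ∧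
      (∀ d, d ∈ D → Related R (S.l d) (S.p d) (S.s d)) ∧
      (∀ d, ∀ α, ∀ a : Set Om, d ∈ D ∧ (S.l d ≤ α ∧ EqBelow (S.l d) (S.p d) a) →
        ∃ d', d' ∈ D ∧ (d' ≤ d ∧ α ≤ S.l d' ∧ EqBelow α a (S.p d'))) ∧
      (∀ c : ℕ → S.Q, (∀ n, c n ∈ D) ∧ (∀ n, c (n + 1) ≤ c n) →
        ∃ d, d ∈ D ∧ ((∀ n, d ≤ c n) ∧ ∀ x < S.l d, ∃ n, x < S.l (c n)))

section names

variable {P : Type} [Preorder P]

/-- The subset of `ω₁` named by `y` has the same elements below `α` as `a`. -/
def NameEq (α : Om) (y : Om → Set P) (a : Set Om) : Set P :=
  fall fun x : Om => fall fun _ : x < α => fiff (meets (y x)) (fground (x ∈ a))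

/-- The map `ω₁ → 𝒫(ω)` named by `g` has the same values below `α` as `b`. -/
def NameEqFun (α : Om) (g : Om → ℕ → Set P) (b : Om → Set ℕ) : Set P :=
  fall fun x : Om => fall fun _ : x < α => fall fun n : ℕ =>
    fiff (meets (g x n)) (fground (n ∈ b x))

/-- The initial segments of length `α` of the subset of `ω₁` named by `y` and of the map
`ω₁ → 𝒫(ω)` named by `g` are related by the relation named by `R`. -/
def NameRelated (R : Om → Set Om → (Om → Set ℕ) → Set P) (α : Om) (y : Om → Set P)
    (g : Om → ℕ → Set P) : Set P :=
  fex fun a' : Set Om => fex fun b' : Om → Set ℕ =>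
    fand (NameEq α y a') (fand (NameEqFun α g b') (meets (R α a' b')))

/-- The initial segments of length `α` of `a` and `b` are related by the relation named by `R`. -/
def GroundRelated (R : Om → Set Om → (Om → Set ℕ) → Set P) (α : Om) (a : Set Om)
    (b : Om → Set ℕ) : Set P :=
  fex fun a' : Set Om => fex fun b' : Om → Set ℕ =>
    fand (fground (EqBelow α a a' ∧ EqBelowFun α b b')) (meets (R α a' b'))

end names

/-- In the extension the principle of `σ`-closed lifting holds. (The forcing notions for which this
is used add no new countable sequences of ground model objects, so every initial segment of a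
subset of `ω₁` in the extension belongs to the ground model, and so does every sequence of elements
of `S.Q`.) -/
def LiftingHolds (P : Type) [Preorder P] : Set P :=
  fall fun R : Om → Set Om → (Om → Set ℕ) → Set P =>
    fimp (fall fun y : Om → Set P => fex fun g : Om → ℕ → Set P => fall fun α =>
      NameRelated R α y g)
    (fex fun S : Sys => fex fun D : S.Q → Set P =>
      fand (fex fun d => meets (D d))
      (fand (fall fun d => fimp (meets (D d)) (GroundRelated R (S.l d) (S.p d) (S.s d)))
      (fand (fall fun d => fall fun α => fall fun a : Set Om =>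
          fimp (fand (meets (D d)) (fground (S.l d ≤ α ∧ EqBelow (S.l d) (S.p d) a)))
          (fex fun d' => fand (meets (D d')) (fground (d' ≤ d ∧ α ≤ S.l d' ∧ EqBelow α a (S.p d')))))
        (fall fun c : ℕ → S.Q =>
          fimp (fand (fall fun n => meets (D (c n))) (fground (∀ n, c (n + 1) ≤ c n)))
          (fex fun d => fand (meets (D d))
            (fground ((∀ n, d ≤ c n) ∧ ∀ x < S.l d, ∃ n, x < S.l (c n))))))))

/-- In the extension every sequence of elements of a ground model set belongs to the ground
model. -/
def NoNewSequences (P : Type) [Preorder P] : Set P :=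
  fall fun X : Type => fall fun f : ℕ → X → Set P =>
    fimp (IsFun f) (fex fun c : ℕ → X => fall fun n => meets (f n (c n)))

end Pool.Agent.L5helper89.CPS
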