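import Mathlib
import Pool.Agent.L5helper89.CPS.Defs
import Pool.Agent.Helper937.Dya3

/-!
# The fusion argument
-/

set_option autoImplicit false

namespace Pool.Agent.L5helper89.CPS

open Set
open Pool.Agent.Helper292.ForceCH (Om SigmaClosed meet_countable Down exists_bound)
open Pool.Agent.Helper937.Dya (Cp)

/-- The data on which the fusion argument works. -/
structure Board (K : Type) [TopologicalSpace K] where
  D : Type
  ord : Preorder D
  d0 : D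
  l : D → Om
  p : D → Set Om
  G : D → Cp K
  pt : Om → ℕ → K
  mono : ∀ d d' : D, d' ≤ d → l d ≤ l d' ∧ EqBelow (l d) (p d) (p d') ∧
    ∀ x < l d, ∀ i, (G d').1 (pt x i) = (G d).1 (pt x i)
  ext : ∀ (d : D) (α : Om) (a : Set Om), l d ≤ α → EqBelow (l d) (p d) a →
    ∃ d' ≤ d, α ≤ l d' ∧ EqBelow α a (p d')
  closed : ∀ c : ℕ → D, (∀ n, c (n + 1) ≤ c n) →
    ∃ d, (∀ n, d ≤ c n) ∧ ∀ x < l d, ∃ n, x < l (c n)
  code : ∀ d, ∀ x < l d, ∃ (N : ℕ) (δ : ℚ) (e : Fin N → ℕ × ℚ), 0 < δ ∧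
    (∀ j, |(G d).1 (pt x (e j).1) - (e j).2| < δ) ∧
    ∀ d', x < l d' → (x ∈ p d' ↔ x ∉ p d) →
      ∃ j, 2 * (δ : ℝ) ≤ |(G d').1 (pt x (e j).1) - (e j).2|

namespace Board

variable {K : Type} [TopologicalSpace K]

instance (B : Board K) : Preorder B.D := B.ord

/-- `e` codes the value of `d` at `x`. -/
def Code (B : Board K) (N : ℕ) (δ : ℚ) (e : Fin N → ℕ × ℚ) (x : Om) (d : B.D) : Prop :=
  x < B.l d ∧ (∀ j, |(B.G d).1 (B.pt x (e j).1) - (e j).2| < δ) ∧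
    ∀ d', x < B.l d' → (x ∈ B.p d' ↔ x ∉ B.p d) →
      ∃ j, 2 * (δ : ℝ) ≤ |(B.G d').1 (B.pt x (e j).1) - (e j).2|

theorem Code.mono {B : Board K} {N : ℕ} {δ : ℚ} {e : Fin N → ℕ × ℚ} {x : Om} {d d' : B.D}
    (h : B.Code N δ e x d) (hd : d' ≤ d) : B.Code N δ e x d' := by
  obtain ⟨h1, h2, h3⟩ := h
  obtain ⟨m1, m2, m3⟩ := B.mono d d' hd
  refine ⟨h1.trans_le m1, fun j => ?_, fun d'' hx hiff => ?_⟩
  · rw [m3 x h1]
    exact h2 j
  · exact h3 d'' hx (hiff.trans (not_congr (m2 x h1).symm))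

/-- There are an extension of the tuple and a common code at a layer above all levels. -/
def Com (B : Board K) {ι : Type} (N : ℕ) (δ : ℚ) (F : Finset ι) (q : ι → B.D) : Prop :=
  ∃ q' : ι → B.D, (∀ i ∈ F, q' i ≤ q i) ∧ ∃ x, (∀ i ∈ F, B.l (q i) ≤ x) ∧
    ∃ e, ∀ i ∈ F, B.Code N δ e x (q' i)

/-- Every extension of the tuple has an extension with a common code. -/
def Good (B : Board K) {ι : Type} (N : ℕ) (δ : ℚ) (F : Finset ι) (q : ι → B.D) : Prop :=
  ∀ q' : ι → B.D, (∀ i ∈ F, q' i ≤ q i) → B.Com N δ F q'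

theorem Com.up {B : Board K} {ι : Type} {N : ℕ} {δ : ℚ} {F : Finset ι} {q q' : ι → B.D}
    (h : B.Com N δ F q') (hq : ∀ i ∈ F, q' i ≤ q i) : B.Com N δ F q := by
  obtain ⟨q'', h1, x, h2, e, h3⟩ := h
  exact ⟨q'', fun i hi => (h1 i hi).trans (hq i hi), x,
    fun i hi => (B.mono _ _ (hq i hi)).1.trans (h2 i hi), e, h3⟩

theorem Good.down {B : Board K} {ι : Type} {N : ℕ} {δ : ℚ} {F : Finset ι} {q q' : ι → B.D}
    (h : B.Good N δ F q) (hq : ∀ i ∈ F, q' i ≤ q i) : B.Good N δ F q' :=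
  fun q'' h'' => h q'' fun i hi => (h'' i hi).trans (hq i hi)

/-- Reindexing. -/
theorem Good.reindex {B : Board K} {ι κ : Type} [DecidableEq ι] {N : ℕ} {δ : ℚ} {F : Finset κ}
    (f : κ → ι) (hf : ∀ i ∈ F, ∀ j ∈ F, f i = f j → i = j) {q : ι → B.D} {u : κ → B.D}
    (h : B.Good N δ (F.image f) q) (hu : ∀ i ∈ F, u i ≤ q (f i)) : B.Good N δ F u := by
  classical
  intro w hw
  rcases F.eq_empty_or_nonempty with hF | ⟨i₀, hi₀⟩
  · subst hF
    have h0 := h q (by simp)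
    obtain ⟨q', -, x, -, e, -⟩ := h0
    exact ⟨w, by simp, x, by simp, e, by simp⟩
  -- transport `w` to `ι`
  have hinv : ∀ a ∈ F.image f, ∃ i ∈ F, f i = a := fun a ha => Finset.mem_image.mp ha
  let W : ι → B.D := fun a => if ha : ∃ i ∈ F, f i = a then w ha.choose else q a
  have hW : ∀ i ∈ F, W (f i) = w i := by
    intro i hi
    have hex : ∃ j ∈ F, f j = f i := ⟨i, hi, rfl⟩
    simp only [W, dif_pos hex]
    congr 1
    exact hf _ hex.choose_spec.1 _ hi hex.choose_spec.2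
  have hWq : ∀ a ∈ F.image f, W a ≤ q a := by
    intro a ha
    obtain ⟨i, hi, rfl⟩ := Finset.mem_image.mp ha
    rw [hW i hi]
    exact (hw i hi).trans (hu i hi)
  obtain ⟨q', h1, x, h2, e, h3⟩ := h W hWq
  refine ⟨fun i => q' (f i), fun i hi => ?_, x, fun i hi => ?_, e, fun i hi => ?_⟩
  · rw [← hW i hi]
    exact h1 _ (Finset.mem_image_of_mem f hi)
  · rw [← hW i hi]
    exact h2 _ (Finset.mem_image_of_mem f hi)
  · exact h3 _ (Finset.mem_image_of_mem f hi)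

theorem Com.reindex {B : Board K} {ι κ : Type} [DecidableEq ι] {N : ℕ} {δ : ℚ} {F : Finset κ}
    (f : κ → ι) (hf : ∀ i ∈ F, ∀ j ∈ F, f i = f j → i = j) {q : ι → B.D} {u : κ → B.D}
    (hu : ∀ i ∈ F, u i ≤ q (f i)) (x : Om) (hx : ∀ i ∈ F, B.l (q (f i)) ≤ x)
    (e : Fin N → ℕ × ℚ) (he : ∀ i ∈ F, B.Code N δ e x (u i)) : B.Com N δ (F.image f) q := by
  classical
  let W : ι → B.D := fun a => if ha : ∃ i ∈ F, f i = a then u ha.choose else q a
  have hW : ∀ i ∈ F, W (f i) = u i := by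
    intro i hi
    have hex : ∃ j ∈ F, f j = f i := ⟨i, hi, rfl⟩
    simp only [W, dif_pos hex]
    congr 1
    exact hf _ hex.choose_spec.1 _ hi hex.choose_spec.2
  refine ⟨W, ?_, x, ?_, e, ?_⟩
  · intro a ha
    obtain ⟨i, hi, rfl⟩ := Finset.mem_image.mp ha
    rw [hW i hi]
    exact hu i hi
  · intro a ha
    obtain ⟨i, hi, rfl⟩ := Finset.mem_image.mp ha
    exact hx i hi
  · intro a ha
    obtain ⟨i, hi, rfl⟩ := Finset.mem_image.mp ha
    rw [hW i hi]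
    exact he i hi

theorem sigmaClosed_pi (B : Board K) (ι : Type) : SigmaClosed (ι → B.D) := by
  intro s hs
  have h : ∀ i, ∃ d, ∀ n, d ≤ s n i := fun i => by
    obtain ⟨d, hd, -⟩ := B.closed (fun n => s n i) fun n => hs n i
    exact ⟨d, hd⟩
  choose d hd using h
  exact ⟨d, fun n i => hd i n⟩

theorem decide_good (B : Board K) {ι : Type} [Countable ι] (q : ι → B.D) :
    ∃ q' ≤ q, ∀ (N : ℕ) (δ : ℚ) (F : Finset ι), B.Good N δ F q' ∨ ¬ B.Com N δ F q' := by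
  classical
  obtain ⟨f, hf⟩ := exists_surjective_nat (ℕ × ℚ × Finset ι)
  let Ψ : ℕ → Set (ι → B.D) := fun n =>
    {q | B.Good (f n).1 (f n).2.1 (f n).2.2 q ∨ ¬ B.Com (f n).1 (f n).2.1 (f n).2.2 q}
  obtain ⟨q', hq', h⟩ := meet_countable (B.sigmaClosed_pi ι) Ψ (by
    intro n r hr t ht
    rcases hr with hr | hr
    · exact Or.inl (hr.down fun i _ => ht i)
    · exact Or.inr fun hc => hr (hc.up fun i _ => ht i)) q (by
    intro n r _
    by_cases hg : B.Good (f n).1 (f n).2.1 (f n).2.2 r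
    · exact ⟨r, le_rfl, Or.inl hg⟩
    · simp only [Good] at hg
      push Not at hg
      obtain ⟨w, hw, hnc⟩ := hg
      refine ⟨fun i => if i ∈ (f n).2.2 then w i else r i, ?_, Or.inr ?_⟩
      · intro i
        by_cases hi : i ∈ (f n).2.2
        · simp only [hi, if_true]
          exact hw i hi
        · simp only [hi, if_false]
          exact le_rfl
      · intro hc
        apply hnc
        refine hc.up fun i hi => ?_
        simp only [hi, if_true]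
        exact le_rfl)
  refine ⟨q', hq', fun N δ F => ?_⟩
  obtain ⟨n, hn⟩ := hf (N, δ, F)
  have := h n
  simp only [Ψ, mem_ofPred_eq, hn] at this
  exact this

/-- A tree of conditions which decides everything. -/
theorem exists_scheme (B : Board K) : ∃ T : ∀ n : ℕ, (Fin n → Bool) → B.D,
    (∀ n (s : Fin (n + 1) → Bool), T (n + 1) s ≤ T n fun i => s i.castSucc) ∧
    ∀ n (N : ℕ) (δ : ℚ) (F : Finset (Fin n → Bool)),
      B.Good N δ F (T n) ∨ ¬ B.Com N δ F (T n) := by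
  choose dec h1 h2 using fun (n : ℕ) (q : (Fin n → Bool) → B.D) => B.decide_good q
  let T : ∀ n : ℕ, (Fin n → Bool) → B.D := fun n =>
    Nat.rec (motive := fun n => (Fin n → Bool) → B.D) (dec 0 fun _ => B.d0)
      (fun n t => dec (n + 1) fun s => t fun i => s i.castSucc) n
  refine ⟨T, fun n s => h1 (n + 1) _ s, fun n => ?_⟩
  cases n with
  | zero => exact h2 0 _
  | succ n => exact h2 (n + 1) _

theorem exists_value (B : Board K) (d : B.D) (x : Om) (hx : B.l d ≤ x) (c : Prop) :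
    ∃ d' ≤ d, x < B.l d' ∧ (x ∈ B.p d' ↔ c) := by
  classical
  obtain ⟨α, hα⟩ := exists_gt x
  obtain ⟨d', h1, h2, h3⟩ := B.ext d α {y | if y = x then c else y ∈ B.p d} (hx.trans hα.le) (by
    intro y hy
    have hne : y ≠ x := (hy.trans_le hx).ne
    simp [hne])
  refine ⟨d', h1, hα.trans_le h2, ?_⟩
  rw [← h3 x hα]
  simp

theorem exists_bound_of_countable {ι : Type} [Countable ι] (f : ι → Om) : ∃ a : Om, ∀ i, f i ≤ a := by
  rcases isEmpty_or_nonempty ι with h | h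
  · obtain ⟨a, -⟩ := exists_bound fun _ => (Classical.arbitrary Om)
    exact ⟨a, fun i => (h.false i).elim⟩
  obtain ⟨g, hg⟩ := exists_surjective_nat ι
  obtain ⟨a, ha⟩ := exists_bound fun n => f (g n)
  refine ⟨a, fun i => ?_⟩
  obtain ⟨n, rfl⟩ := hg i
  exact (ha n).le

theorem exists_seq (B : Board K) : ∃ (N : ℕ) (δ : ℚ) (u : ℕ → B.D), 0 < δ ∧
    ∀ F : Finset ℕ, B.Good N δ F u := by
  classical
  obtain ⟨T, hT, hdec⟩ := B.exists_scheme
  -- a bound of all levels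
  obtain ⟨lam, hlam⟩ := exists_bound_of_countable
    (fun t : (Σ n : ℕ, Fin n → Bool) => B.l (T t.1 t.2))
  -- branches
  have hbr : ∀ y : ℕ → Bool, ∃ d : B.D, (∀ n, d ≤ T n fun i => y i) ∧ B.l d ≤ lam := by
    intro y
    obtain ⟨d, h1, h2⟩ := B.closed (fun n => T n fun i => y i)
      (fun n => hT n fun i => y i)
    refine ⟨d, h1, ?_⟩
    by_contra hc
    obtain ⟨n, hn⟩ := h2 lam (not_le.mp hc)
    exact absurd (hlam ⟨n, fun i => y i⟩) (not_le.mpr hn)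
  choose b hb hbl using hbr
  have hex : ∀ y : ℕ → Bool, ∃ d ≤ b y, lam < B.l d := fun y => by
    obtain ⟨d, h1, h2, -⟩ := B.exists_value (b y) lam (hbl y) True
    exact ⟨d, h1, h2⟩
  choose w hw hwl using hex
  have hcode : ∀ y : ℕ → Bool, ∃ t : (Σ N : ℕ, ℚ × (Fin N → ℕ × ℚ)), 0 < t.2.1 ∧
      B.Code t.1 t.2.1 t.2.2 lam (w y) := fun y => by
    obtain ⟨N, δ, e, h1, h2, h3⟩ := B.code (w y) lam (hwl y)
    exact ⟨⟨N, δ, e⟩, h1, hwl y, h2, h3⟩
  choose t ht0 ht using hcode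
  have hunc : ¬ (univ : Set (ℕ → Bool)).Countable := by
    rw [countable_univ_iff]
    intro h
    obtain ⟨f, hf⟩ := exists_surjective_nat (ℕ → Bool)
    obtain ⟨n, hn⟩ := hf fun n => !(f n n)
    have := congrFun hn n
    simp at this
  obtain ⟨c, hc⟩ := Pool.Agent.Helper937.Fact.uncountable_fiber t univ hunc
  have hinf : ({i ∈ (univ : Set (ℕ → Bool)) | t i = c}).Infinite := fun h => hc h.countable
  let y : ℕ ↪ {i ∈ (univ : Set (ℕ → Bool)) | t i = c} := hinf.natEmbedding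
  have hy : ∀ m, t (y m).1 = c := fun m => (y m).2.2
  have hcode : ∀ m, B.Code c.1 c.2.1 c.2.2 lam (w (y m).1) := fun m => by
    have := ht (y m).1
    rw [hy m] at this
    exact this
  refine ⟨c.1, c.2.1, fun m => w (y m).1, ?_, fun F => ?_⟩
  · have := ht0 (y 0).1
    rw [hy 0] at this
    exact this
  -- separate the branches
  obtain ⟨n, hn⟩ : ∃ n : ℕ, ∀ i ∈ F, ∀ j ∈ F,
      (fun k : Fin n => (y i).1 k) = (fun k : Fin n => (y j).1 k) → i = j := by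
    have h1 : ∀ s : ℕ × ℕ, ∃ k : ℕ, s.1 ≠ s.2 → (y s.1).1 k ≠ (y s.2).1 k := by
      intro s
      by_cases h : s.1 = s.2
      · exact ⟨0, fun h' => absurd h h'⟩
      · have : (y s.1).1 ≠ (y s.2).1 := fun h' => h (y.injective (Subtype.ext h'))
        obtain ⟨k, hk⟩ := Function.ne_iff.mp this
        exact ⟨k, fun _ => hk⟩
    choose k hk using h1
    obtain ⟨M, hM⟩ := ((F ×ˢ F).image k).bddAbove
    refine ⟨M + 1, fun i hi j hj hij => ?_⟩
    by_contra hne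
    have h2 : k (i, j) ≤ M := hM (Finset.mem_coe.mpr (Finset.mem_image_of_mem k
      (Finset.mk_mem_product hi hj)))
    exact hk (i, j) hne (congrFun hij ⟨k (i, j), Nat.lt_succ_of_le h2⟩)
  let f : ℕ → (Fin n → Bool) := fun m k => (y m).1 k
  have hle : ∀ m, w (y m).1 ≤ T n (f m) := fun m => (hw _).trans (hb _ n)
  rcases hdec n c.1 c.2.1 (F.image f) with hg | hnc
  · exact hg.reindex f hn fun i _ => hle i
  · exact absurd (Com.reindex f hn (fun i _ => hle i) lam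
      (fun i _ => hlam ⟨n, f i⟩) c.2.2 (fun i _ => hcode i)) hnc

theorem step (B : Board K) {N : ℕ} {δ : ℚ} {v : ℕ → B.D}
    (hv : ∀ F : Finset ℕ, B.Good N δ F v) (n : ℕ) (F : Finset ℕ) (h0 : 0 ∈ F) :
    ∃ v' : ℕ → B.D, v' ≤ v ∧ ∃ (x : Om) (e : Fin N → ℕ × ℚ),
      (∀ m ∈ F, B.Code N δ e x (v' m)) ∧
      ∀ m < n, m ∉ F → x < B.l (v' m) ∧ (x ∈ B.p (v' m) ↔ x ∉ B.p (v' 0)) := by
  classical
  obtain ⟨β, hβ⟩ := exists_bound_of_countable (fun m => B.l (v m))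
  have h1 : ∀ m, ∃ d ≤ v m, β < B.l d := fun m => by
    obtain ⟨d, h1, h2, -⟩ := B.exists_value (v m) β (hβ m) True
    exact ⟨d, h1, h2⟩
  choose v₁ hv₁ hl₁ using h1
  obtain ⟨v₂, h2, x, hx, e, he⟩ := hv F v₁ fun i _ => hv₁ i
  have hβx : β ≤ x := (hl₁ 0).le.trans (hx 0 h0)
  have h3 : ∀ m, ∃ d ≤ v m, x < B.l d ∧ (x ∈ B.p d ↔ x ∉ B.p (v₂ 0)) := fun m =>
    B.exists_value (v m) x ((hβ m).trans hβx) _
  choose v₃ hv₃ hl₃ hp₃ using h3
  refine ⟨fun m => if m ∈ F then v₂ m else v₃ m, ?_, x, e, ?_, ?_⟩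
  · intro m
    by_cases hm : m ∈ F
    · simp only [hm, if_true]
      exact (h2 m hm).trans (hv₁ m)
    · simp only [hm, if_false]
      exact hv₃ m
  · intro m hm
    simp only [hm, if_true]
    exact he m hm
  · intro m _ hm
    simp only [hm, if_false, h0, if_true]
    exact ⟨hl₃ m, hp₃ m⟩

/-- The output of the fusion. -/
theorem fusion (B : Board K) (C : ℕ → Finset ℕ) (h0 : ∀ n, 0 ∈ C n) :
    ∃ (N : ℕ) (δ : ℚ) (g : ℕ → Cp K) (z : ℕ → Fin N → K) (r : ℕ → Fin N → ℝ), 0 < δ ∧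
      (∀ n, ∀ m ∈ C n, ∀ j, |(g m).1 (z n j) - r n j| < δ) ∧
      ∀ n, ∀ m < n, m ∉ C n → ∃ j, 2 * (δ : ℝ) ≤ |(g m).1 (z n j) - r n j| := by
  classical
  obtain ⟨N, δ, u, hδ, hu⟩ := B.exists_seq
  choose! st hst x e hcode hout using fun (n : ℕ) (v : ℕ → B.D)
    (hv : ∀ F : Finset ℕ, B.Good N δ F v) => B.step hv n (C n) (h0 n)
  let v : ℕ → {v : ℕ → B.D // ∀ F : Finset ℕ, B.Good N δ F v} := fun n =>
    Nat.rec ⟨u, hu⟩ (fun n v => ⟨st n v.1, fun F => (v.2 F).down fun i _ => hst n v.1 v.2 i⟩) n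
  have hdec : ∀ n, (v (n + 1)).1 ≤ (v n).1 := fun n => hst n (v n).1 (v n).2
  have hlow : ∀ m, ∃ d : B.D, ∀ n, d ≤ (v n).1 m := fun m => by
    obtain ⟨d, hd, -⟩ := B.closed (fun n => (v n).1 m) fun n => hdec n m
    exact ⟨d, hd⟩
  choose w hw using hlow
  have hc : ∀ n, ∀ m ∈ C n, B.Code N δ (e n (v n).1) (x n (v n).1) (w m) := fun n m hm =>
    (hcode n (v n).1 (v n).2 m hm).mono (hw m (n + 1))
  refine ⟨N, δ, fun m => B.G (w m), fun n j => B.pt (x n (v n).1) (e n (v n).1 j).1,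
    fun n j => (e n (v n).1 j).2, hδ, fun n m hm => (hc n m hm).2.1, fun n m hm hmC => ?_⟩
  obtain ⟨h1, h2⟩ := hout n (v n).1 (v n).2 m hm hmC
  obtain ⟨m1, m2, -⟩ := B.mono ((v (n + 1)).1 m) (w m) (hw m (n + 1))
  obtain ⟨m1', m2', -⟩ := B.mono ((v (n + 1)).1 0) (w 0) (hw 0 (n + 1))
  have h3 := hcode n (v n).1 (v n).2 0 (h0 n)
  refine (hc n 0 (h0 n)).2.2 (w m) (h1.trans_le m1) ?_
  rw [← m2 _ h1, ← m2' _ h3.1]
  exact h2

end Board

end Pool.Agent.L5helper89.CPS
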