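import Mathlib
import Pool.Agent.L5helper89.CPS.Defs

/-!
# The forcing notion adding many Cohen subsets of `ω₁`: basic facts
-/

set_option autoImplicit false

namespace Pool.Agent.L5helper89.CPS

open Cardinal Set
open Pool.Agent.Helper292.ForceCH (Om fnot fand fall fimp fiff fex fground meets IsFun IsOnto
  OmegaOnePreserved mem_fex mem_fimp down_meets down_fnot down_fex Down meets_of_dense fimp_of SigmaClosed
  meet_countable decide_countable countable_Iio exists_bound ub lt_ub ub_le)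

/-- A countable partial function from `I × ω₁` to `{0, 1}`: its domain, and the set of places
where the value is `1`. -/
structure CC (I : Type) where
  dom : Set (I × Om)
  ctb : dom.Countable
  val : Set (I × Om)

variable {I : Type}

instance : Preorder (CC I) where
  le q p := p.dom ⊆ q.dom ∧ ∀ z ∈ p.dom, (z ∈ q.val ↔ z ∈ p.val)
  le_refl p := ⟨subset_rfl, fun _ _ => Iff.rfl⟩
  le_trans r q p h h' := ⟨h'.1.trans h.1, fun z hz => (h.2 z (h'.1 hz)).trans (h'.2 z hz)⟩

theorem CC.le_def {q p : CC I} : q ≤ p ↔ p.dom ⊆ q.dom ∧ ∀ z ∈ p.dom, (z ∈ q.val ↔ z ∈ p.val) :=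
  Iff.rfl

instance : Nonempty (CC I) := ⟨⟨∅, countable_empty, ∅⟩⟩

/-- restriction to the coordinates in `J` -/
def CC.res (J : Set I) (c : CC I) : CC I :=
  ⟨{z ∈ c.dom | z.1 ∈ J}, c.ctb.mono fun _ h => h.1, c.val⟩

theorem CC.le_res (J : Set I) (c : CC I) : c ≤ c.res J :=
  ⟨fun _ h => h.1, fun _ _ => Iff.rfl⟩

theorem CC.res_mono (J : Set I) {c d : CC I} (h : d ≤ c) : d.res J ≤ c.res J :=
  ⟨fun _ hz => ⟨h.1 hz.1, hz.2⟩, fun z hz => h.2 z hz.1⟩

theorem CC.res_res (J : Set I) (c : CC I) : (c.res J).res J ≤ c.res J :=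
  ⟨fun _ hz => ⟨hz, hz.2⟩, fun _ _ => Iff.rfl⟩

/-- the union of two conditions (the first one has priority) -/
def CC.union (c d : CC I) : CC I :=
  ⟨c.dom ∪ d.dom, c.ctb.union d.ctb, {z | (z ∈ c.dom ∧ z ∈ c.val) ∨ (z ∉ c.dom ∧ z ∈ d.val)}⟩

theorem CC.union_le_left (c d : CC I) : c.union d ≤ c := by
  refine ⟨subset_union_left, fun z hz => ?_⟩
  constructor
  · rintro (h | h)
    · exact h.2
    · exact absurd hz h.1
  · exact fun h => Or.inl ⟨hz, h⟩

theorem CC.union_le_right (c d : CC I) (h : ∀ z ∈ c.dom, z ∈ d.dom → (z ∈ c.val ↔ z ∈ d.val)) :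
    c.union d ≤ d := by
  refine ⟨subset_union_right, fun z hz => ?_⟩
  constructor
  · rintro (h' | h')
    · exact (h z h'.1 hz).1 h'.2
    · exact h'.2
  · intro h'
    by_cases hc : z ∈ c.dom
    · exact Or.inl ⟨hc, (h z hc hz).2 h'⟩
    · exact Or.inr ⟨hc, h'⟩

theorem anti_of_succ {Q : Type} [Preorder Q] (c : ℕ → Q) (hc : ∀ n, c (n + 1) ≤ c n) :
    ∀ m n, m ≤ n → c n ≤ c m := by
  intro m n h
  induction h with
  | refl => exact le_rfl
  | step h ih => exact (hc _).trans ih

/-- the union of a decreasing sequence -/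
def CC.lim (c : ℕ → CC I) : CC I :=
  ⟨⋃ n, (c n).dom, countable_iUnion fun n => (c n).ctb, {z | ∃ n, z ∈ (c n).dom ∧ z ∈ (c n).val}⟩

theorem CC.lim_le (c : ℕ → CC I) (hc : ∀ n, c (n + 1) ≤ c n) (n : ℕ) : CC.lim c ≤ c n := by
  refine ⟨subset_iUnion (fun n => (c n).dom) n, fun z hz => ?_⟩
  have hanti := anti_of_succ c hc
  constructor
  · rintro ⟨m, hm, hm'⟩
    rcases le_total m n with h | h
    · exact ((hanti m n h).2 z hm).2 hm'
    · exact ((hanti n m h).2 z hz).1 hm'
  · exact fun h => ⟨n, hz, h⟩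

theorem CC.sigmaClosed : SigmaClosed (CC I) := fun c hc => ⟨CC.lim c, CC.lim_le c hc⟩

/-- the statement that a condition belongs to the generic filter -/
theorem mem_meets_singleton {t w : CC I} : t ∈ meets {w} ↔ t ≤ w := by
  constructor
  · intro h
    refine ⟨fun z hz => ?_, fun z hz => ?_⟩
    · by_contra hzt
      -- extend `t` at `z` by the wrong value
      let t' : CC I := ⟨insert z t.dom, t.ctb.insert z,
        {y | (y = z ∧ z ∉ w.val) ∨ (y ≠ z ∧ y ∈ t.val)}⟩
      have ht' : t' ≤ t := by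
        refine ⟨subset_insert _ _, fun y hy => ?_⟩
        have hyz : y ≠ z := fun h => hzt (h ▸ hy)
        constructor
        · rintro (h' | h')
          · exact absurd h'.1 hyz
          · exact h'.2
        · exact fun h' => Or.inr ⟨hyz, h'⟩
      obtain ⟨r, hr, s, hs, hrs⟩ := h t' ht'
      have hs' : s = w := hs
      subst hs'
      have h1 := hr.2 z (mem_insert _ _)
      have h2 := hrs.2 z hz
      have h3 : z ∈ t'.val ↔ z ∉ s.val := by
        constructor
        · rintro (h' | h')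
          · exact h'.2
          · exact absurd rfl h'.1
        · exact fun h' => Or.inl ⟨rfl, h'⟩
      tauto
    · obtain ⟨r, hr, s, hs, hrs⟩ := h t le_rfl
      have hs' : s = w := hs
      subst hs'
      by_cases hzt : z ∈ t.dom
      · exact (hr.2 z hzt).symm.trans (hrs.2 z hz)
      · exfalso
        let t' : CC I := ⟨insert z t.dom, t.ctb.insert z,
          {y | (y = z ∧ z ∉ s.val) ∨ (y ≠ z ∧ y ∈ t.val)}⟩
        have ht' : t' ≤ t := by
          refine ⟨subset_insert _ _, fun y hy => ?_⟩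
          have hyz : y ≠ z := fun h => hzt (h ▸ hy)
          constructor
          · rintro (h' | h')
            · exact absurd h'.1 hyz
            · exact h'.2
          · exact fun h' => Or.inr ⟨hyz, h'⟩
        obtain ⟨r', hr', s', hs', hrs'⟩ := h t' ht'
        have hs'' : s' = s := hs'
        subst hs''
        have h1 := hr'.2 z (mem_insert _ _)
        have h2 := hrs'.2 z hz
        have h3 : z ∈ t'.val ↔ z ∉ s'.val := by
          constructor
          · rintro (h' | h')
            · exact h'.2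
            · exact absurd rfl h'.1
          · exact fun h' => Or.inl ⟨rfl, h'⟩
        tauto
  · exact fun h q hq => ⟨q, le_rfl, w, rfl, hq.trans h⟩

/-! ### General facts about `σ`-closed forcing notions -/

section sigma

variable {P : Type} [Preorder P]

theorem omegaOnePreserved_of (hP : SigmaClosed P) (p : P) : p ∈ OmegaOnePreserved P := by
  intro q _ hq
  obtain ⟨r, _, R, hR, hR'⟩ := mem_fex.1 hq q le_rfl
  obtain ⟨t, ht, h1⟩ := meet_countable hP (fun n => {t | ∃ a, t ∈ meets (R n a)})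
    (fun n t ⟨a, ha⟩ t' ht' => ⟨a, down_meets _ _ ha _ ht'⟩) r (by
      intro n t ht
      obtain ⟨t', ht', a, ha⟩ := mem_fex.1 (hR.1 n) t ht
      exact ⟨t', ht', a, ha⟩)
  choose g hg using h1
  obtain ⟨b, hb⟩ := exists_bound g
  obtain ⟨t', ht', n, hn⟩ := mem_fex.1 (hR' b) t ht
  have h2 := hR.2 n (g n) b
  obtain ⟨t'', _, h3⟩ := mem_fimp.1 h2 t' (ht'.trans ht) ⟨down_meets _ _ (hg n) _ ht', hn⟩
  exact (hb n).ne h3

theorem noNewSequences_of (hP : SigmaClosed P) (p : P) : p ∈ NoNewSequences P := by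
  intro X f
  refine mem_fimp.2 fun q _ hf => ?_
  refine ⟨q, le_rfl, mem_fex.2 fun r hr => ?_⟩
  obtain ⟨t, ht, h1⟩ := meet_countable hP (fun n => {t | ∃ a, t ∈ meets (f n a)})
    (fun n t ⟨a, ha⟩ t' ht' => ⟨a, down_meets _ _ ha _ ht'⟩) r (by
      intro n t ht
      obtain ⟨t', ht', a, ha⟩ := mem_fex.1 (hf.1 n) t (ht.trans hr)
      exact ⟨t', ht', a, ha⟩)
  choose g hg using h1
  exact ⟨t, ht, g, hg⟩

end sigma

end Pool.Agent.L5helper89.CPS
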