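import Mathlib
import Pool.Agent.L5helper89.CPS.Force1

/-!
# Small sets of coordinates closed under a function on the conditions
-/

set_option autoImplicit false

namespace Pool.Agent.L5helper89.CPS

open Cardinal Set
open Pool.Agent.Helper292.ForceCH (Om)

/-- labels for the closure under countable operations -/
abbrev DT (X : Type) : Type := (Set (ℕ × Om) × Set (ℕ × Om) × X × ℕ) ⊕ ℕ

/-- arities -/
def BT (X : Type) : DT X → Type
  | Sum.inl _ => ℕ
  | Sum.inr _ => Empty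

theorem mk_WT_le {X : Type} {κ : Cardinal.{0}} (hκ : κ ^ (ℵ₀ : Cardinal.{0}) = κ) (h0 : ℵ₀ ≤ κ)
    (hX : #X ≤ κ) (hOm : #(Set (ℕ × Om)) ≤ κ) : #(WType (BT X)) ≤ κ := by
  refine WType.cardinalMk_le_of_le ?_
  have h1 : #(DT X) ≤ κ := by
    have e : #(DT X) = #(Set (ℕ × Om)) * (#(Set (ℕ × Om)) * (#X * #ℕ)) + #ℕ := by simp
    rw [e]
    have hN : #ℕ ≤ κ := by simpa using h0
    refine add_le_of_le h0 (mul_le_of_le h0 hOm (mul_le_of_le h0 hOm (mul_le_of_le h0 hX hN))) hN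
  calc (sum fun a : DT X => κ ^ #(BT X a)) ≤ sum fun _ : DT X => κ := by
        refine sum_le_sum _ _ fun a => ?_
        rcases a with a | n
        · have e : #(BT X (Sum.inl a)) = ℵ₀ := by simp [BT]
          rw [e, hκ]
        · have e : #(BT X (Sum.inr n)) = 0 := by simp [BT]
          rw [e, power_zero]
          exact one_le_aleph0.trans h0
    _ = #(DT X) * κ := by simp
    _ ≤ κ := mul_le_of_le h0 h1 le_rfl

variable {I : Type}

/-- the coordinates of a condition, listed -/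
theorem exists_coord [Nonempty I] (c : CC I) : ∃ u : ℕ → I, ∀ z ∈ c.dom, z.1 ∈ range u := by
  have hc : (Prod.fst '' c.dom).Countable := c.ctb.image _
  rcases (Prod.fst '' c.dom).eq_empty_or_nonempty with h | h
  · obtain ⟨i⟩ := ‹Nonempty I›
    refine ⟨fun _ => i, fun z hz => ?_⟩
    have : z.1 ∈ Prod.fst '' c.dom := ⟨z, hz, rfl⟩
    rw [h] at this
    exact absurd this (notMem_empty _)
  · obtain ⟨u, hu⟩ := hc.exists_eq_range h
    refine ⟨u, fun z hz => ?_⟩
    rw [← hu]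
    exact ⟨z, hz, rfl⟩

open Classical in
/-- the condition with coordinates `u` and pattern `A`, `B` -/
noncomputable def mkCC (u : ℕ → I) (A B : Set (ℕ × Om)) : CC I :=
  if h : A.Countable then
    ⟨(fun z : ℕ × Om => (u z.1, z.2)) '' A, h.image _, (fun z : ℕ × Om => (u z.1, z.2)) '' B⟩
  else ⟨∅, countable_empty, ∅⟩

theorem mkCC_equiv (u : ℕ → I) (w : CC I) (hu : ∀ z ∈ w.dom, z.1 ∈ range u) :
    mkCC u {z | (u z.1, z.2) ∈ w.dom} {z | (u z.1, z.2) ∈ w.val} ≤ w ∧
      w ≤ mkCC u {z | (u z.1, z.2) ∈ w.dom} {z | (u z.1, z.2) ∈ w.val} := by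
  classical
  set A : Set (ℕ × Om) := {z | (u z.1, z.2) ∈ w.dom} with hA
  set B : Set (ℕ × Om) := {z | (u z.1, z.2) ∈ w.val} with hB
  have hAc : A.Countable := by
    have h1 : A ⊆ ⋃ n : ℕ, (fun x : Om => (n, x)) '' {x | (u n, x) ∈ w.dom} := by
      rintro ⟨n, x⟩ h
      exact mem_iUnion.2 ⟨n, x, h, rfl⟩
    refine (countable_iUnion fun n => ?_).mono h1
    refine Countable.image ?_ _
    have h2 : {x | (u n, x) ∈ w.dom} ⊆ Prod.snd '' w.dom := fun x hx => ⟨_, hx, rfl⟩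
    exact (w.ctb.image _).mono h2
  have e1 : (mkCC u A B).dom = (fun z : ℕ × Om => (u z.1, z.2)) '' A := by
    unfold mkCC; rw [dif_pos hAc]
  have e2 : (mkCC u A B).val = (fun z : ℕ × Om => (u z.1, z.2)) '' B := by
    unfold mkCC; rw [dif_pos hAc]
  have e3 : ∀ z, z ∈ (mkCC u A B).dom ↔ z ∈ w.dom := by
    intro z
    rw [e1]
    constructor
    · rintro ⟨y, hy, rfl⟩
      exact hy
    · intro hz
      obtain ⟨n, hn⟩ := hu z hz
      refine ⟨(n, z.2), ?_, ?_⟩
      · show (u n, z.2) ∈ w.dom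
        rw [hn]
        exact hz
      · show (u n, z.2) = z
        rw [hn]
  have e4 : ∀ z ∈ w.dom, (z ∈ (mkCC u A B).val ↔ z ∈ w.val) := by
    intro z hz
    rw [e2]
    constructor
    · rintro ⟨y, hy, rfl⟩
      exact hy
    · intro hz'
      obtain ⟨n, hn⟩ := hu z hz
      refine ⟨(n, z.2), ?_, ?_⟩
      · show (u n, z.2) ∈ w.val
        rw [hn]
        exact hz'
      · show (u n, z.2) = z
        rw [hn]
  exact ⟨⟨fun z hz => (e3 z).2 hz, e4⟩, ⟨fun z hz => (e3 z).1 hz,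
    fun z hz => (e4 z ((e3 z).1 hz)).symm⟩⟩

/-- Let `f` assign conditions to pairs of a condition and a parameter. There is a small set `J` of
coordinates, containing those of `q`, such that each condition with coordinates in `J` is equivalent
to one to which `f` assigns conditions with coordinates in `J`. -/
theorem exists_closed {X : Type} {κ : Cardinal.{0}} (hκ : κ ^ (ℵ₀ : Cardinal.{0}) = κ)
    (h0 : ℵ₀ ≤ κ) (hX : #X ≤ κ) (hOm : #(Set (ℕ × Om)) ≤ κ) (hI : κ < #I) (q : CC I)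
    (f : CC I → X → CC I) :
    ∃ J : Set I, (∃ i, i ∉ J) ∧ (∀ z ∈ q.dom, z.1 ∈ J) ∧
      ∀ w : CC I, (∀ z ∈ w.dom, z.1 ∈ J) → ∃ w', w' ≤ w ∧ w ≤ w' ∧
        ∀ x, ∀ z ∈ (f w' x).dom, z.1 ∈ J := by
  have hne : Nonempty I := by
    rw [← mk_ne_zero_iff]
    exact (h0.trans hI.le |> aleph0_pos.trans_le).ne'
  choose coord hcoord using fun c : CC I => exists_coord c
  let F : (Σ a : DT X, BT X a → I) → I := fun y => match y with
    | ⟨Sum.inl (A, B, x, k), u⟩ => coord (f (mkCC u A B) x) k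
    | ⟨Sum.inr k, _⟩ => coord q k
  let ev : WType (BT X) → I := WType.elim I F
  have hev1 : ∀ (A B : Set (ℕ × Om)) (x : X) (k : ℕ) (u : ℕ → WType (BT X)),
      coord (f (mkCC (fun n => ev (u n)) A B) x) k ∈ range ev :=
    fun A B x k u => ⟨WType.mk (Sum.inl (A, B, x, k)) u, rfl⟩
  have hev2 : ∀ k : ℕ, coord q k ∈ range ev :=
    fun k => ⟨WType.mk (Sum.inr k) (fun e => e.elim), rfl⟩
  have hcard : #(range ev) ≤ κ := mk_range_le.trans (mk_WT_le hκ h0 hX hOm)
  refine ⟨range ev, ?_, ?_, ?_⟩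
  · by_contra h
    push Not at h
    have h1 : range ev = Set.univ := eq_univ_of_forall h
    rw [h1, mk_univ] at hcard
    exact absurd hcard (not_le.2 hI)
  · intro z hz
    obtain ⟨k, hk⟩ := hcoord q z hz
    rw [← hk]
    exact hev2 k
  · intro w hw
    -- enumerate the coordinates of `w`
    have h1 : ∀ k : ℕ, ∃ t : WType (BT X), ∀ z ∈ w.dom, z.1 = coord w k → ev t = coord w k := by
      intro k
      by_cases h : ∃ z ∈ w.dom, z.1 = coord w k
      · obtain ⟨z, hz, hzk⟩ := h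
        obtain ⟨t, ht⟩ := hw z hz
        exact ⟨t, fun _ _ _ => ht.trans hzk⟩
      · exact ⟨WType.mk (Sum.inr 0) (fun e => e.elim), fun z hz hzk => absurd ⟨z, hz, hzk⟩ h⟩
    choose u hu using h1
    have h2 : ∀ z ∈ w.dom, z.1 ∈ range fun n => ev (u n) := by
      intro z hz
      obtain ⟨k, hk⟩ := hcoord w z hz
      exact ⟨k, (hu k z hz hk.symm).trans hk⟩
    obtain ⟨h3, h4⟩ := mkCC_equiv (fun n => ev (u n)) w h2
    refine ⟨_, h3, h4, fun x z hz => ?_⟩
    obtain ⟨k, hk⟩ := hcoord _ z hz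
    rw [← hk]
    exact hev1 _ _ x k u

end Pool.Agent.L5helper89.CPS
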