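import Mathlib
import Pool.Agent.L5helper89.CPS.Force2

/-!
# Names for a generic subset of `ω₁` and for a map `ω₁ → 𝒫(ω)`
-/

set_option autoImplicit false

namespace Pool.Agent.L5helper89.CPS

open Cardinal Set
open Pool.Agent.Helper292.ForceCH (Om fnot fand fall fimp fiff fex fground meets IsFun IsOnto
  OmegaOnePreserved mem_fex mem_fimp down_meets down_fnot down_fand down_fex down_fimp Down
  meets_of_dense fimp_of fiff_of_decided SigmaClosed
  meet_countable decide_countable countable_Iio exists_bound ub lt_ub ub_le)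

section names

variable {P : Type} [Preorder P]

theorem down_nameEq (α : Om) (y : Om → Set P) (a : Set Om) : Down (NameEq α y a) :=
  fun _ hp _ hq x hx => down_fand (down_fimp _ _) (down_fimp _ _) _ (hp x hx) _ hq

theorem down_nameEqFun (α : Om) (g : Om → ℕ → Set P) (b : Om → Set ℕ) :
    Down (NameEqFun α g b) :=
  fun _ hp _ hq x hx n => down_fand (down_fimp _ _) (down_fimp _ _) _ (hp x hx n) _ hq

theorem nameEqFun_mono {α β : Om} (h : α ≤ β) {g : Om → ℕ → Set P} {b : Om → Set ℕ} {c : P}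
    (hc : c ∈ NameEqFun β g b) : c ∈ NameEqFun α g b :=
  fun x hx n => hc x (lt_of_lt_of_le hx h) n

theorem nameEqFun_unique {α : Om} {g : Om → ℕ → Set P} {b b' : Om → Set ℕ} {c : P}
    (h : c ∈ NameEqFun α g b) (h' : c ∈ NameEqFun α g b') : EqBelowFun α b b' := by
  have key : ∀ b b' : Om → Set ℕ, c ∈ NameEqFun α g b → c ∈ NameEqFun α g b' →
      ∀ x < α, ∀ n, n ∈ b x → n ∈ b' x := by
    intro b b' h h' x hx n hn
    obtain ⟨r, hr, h1⟩ := mem_fimp.1 (h x hx n).2 c le_rfl hn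
    obtain ⟨_, _, h2⟩ := mem_fimp.1 (h' x hx n).1 r hr h1
    exact h2
  intro x hx
  ext n
  exact ⟨key b b' h h' x hx n, key b' b h' h x hx n⟩

/-- deciding an initial segment of `g` -/
theorem exists_nameEqFun (hP : SigmaClosed P) (α : Om) (g : Om → ℕ → Set P) (c : P) :
    ∃ c' ≤ c, ∃ b, c' ∈ NameEqFun α g b := by
  have := countable_Iio α
  obtain ⟨c', hc', h⟩ := decide_countable hP
    (fun z : {b : Om // b < α} × ℕ => meets (g z.1.1 z.2)) (fun _ => down_meets _) c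
  refine ⟨c', hc', fun x => {n | c' ∈ meets (g x n)}, fun x hx n => ?_⟩
  refine fiff_of_decided (down_meets _) (fun _ h _ _ => h) ?_
  rcases h (⟨x, hx⟩, n) with h1 | h1
  · exact Or.inl ⟨h1, h1⟩
  · exact Or.inr ⟨h1, fun q _ hq => h1 c' le_rfl hq⟩

/-- the limit of decided segments -/
theorem nameEqFun_lim {g : Om → ℕ → Set P} (c : P) (α : Om) (β : ℕ → Om) (b : ℕ → Om → Set ℕ)
    (hc : ∀ n, c ∈ NameEqFun (β n) g (b n)) (hα : ∀ x < α, ∃ n, x < β n) :
    ∃ b', c ∈ NameEqFun α g b' := by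
  classical
  refine ⟨fun x => if h : ∃ n, x < β n then b h.choose x else ∅, fun x hx n => ?_⟩
  have h := hα x hx
  have h1 := hc h.choose x h.choose_spec n
  simp only [dif_pos h]
  exact h1

end names

section cohen

variable {I : Type}

/-- the name of the generic subset of `ω₁` with index `i` -/
def gen (i : I) (x : Om) : Set (CC I) := {c | (i, x) ∈ c.dom ∧ (i, x) ∈ c.val}

theorem mem_of_nameEq {i : I} {α : Om} {a : Set Om} {c : CC I} (h : c ∈ NameEq α (gen i) a)
    (hd : ∀ x < α, (i, x) ∈ c.dom) : ∀ x < α, (x ∈ a ↔ (i, x) ∈ c.val) := by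
  intro x hx
  constructor
  · intro ha
    obtain ⟨r, hr, h1⟩ := mem_fimp.1 (h x hx).2 c le_rfl ha
    obtain ⟨t, ht, s, hs, hts⟩ := h1 r le_rfl
    have h2 : (i, x) ∈ t.val := (hts.2 _ hs.1).2 hs.2
    exact ((ht.trans hr).2 _ (hd x hx)).1 h2
  · intro hc
    have h1 : c ∈ meets (gen i x) := fun q hq => ⟨q, le_rfl, c, ⟨hd x hx, hc⟩, hq⟩
    obtain ⟨_, _, h2⟩ := mem_fimp.1 (h x hx).1 c le_rfl h1
    exact h2

theorem countable_level (i : I) (α : Om) (a : Set Om) :
    ∃ c : CC I, (∀ z, z ∈ c.dom ↔ z.1 = i ∧ z.2 < α) ∧ ∀ z, z ∈ c.val ↔ z.2 ∈ a := by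
  refine ⟨⟨{z | z.1 = i ∧ z.2 < α}, ?_, {z | z.2 ∈ a}⟩, fun _ => Iff.rfl, fun _ => Iff.rfl⟩
  have h1 : {z : I × Om | z.1 = i ∧ z.2 < α} ⊆ (fun x : Om => (i, x)) '' {x | x < α} := by
    rintro ⟨j, x⟩ ⟨h, h'⟩
    have h1 : j = i := h
    exact ⟨x, h', by rw [h1]⟩
  refine Countable.mono h1 (Countable.image ?_ _)
  exact Set.countable_coe_iff.1 (countable_Iio α)

/-- one step of the closing off argument -/
theorem close_step (i : I) (g : Om → ℕ → Set (CC I)) (c : CC I) (β : Om) :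
    ∃ c' ≤ c, ∃ β', β < β' ∧ (∀ x, (i, x) ∈ c.dom → x < β') ∧ (∀ x < β', (i, x) ∈ c'.dom) ∧
      ∃ b, c' ∈ NameEqFun β' g b := by
  have h1 : {x | (i, x) ∈ c.dom}.Countable := by
    refine (c.ctb.image Prod.snd).mono ?_
    intro x hx
    exact ⟨_, hx, rfl⟩
  obtain ⟨β', hβ', h2⟩ : ∃ β', β < β' ∧ ∀ x, (i, x) ∈ c.dom → x < β' := by
    rcases Set.eq_empty_or_nonempty {x | (i, x) ∈ c.dom} with h | h
    · obtain ⟨β', h'⟩ := exists_bound fun _ => β
      refine ⟨β', h' 0, fun x hx => ?_⟩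
      have : x ∈ {x | (i, x) ∈ c.dom} := hx
      rw [h] at this
      exact absurd this (notMem_empty _)
    · obtain ⟨u, hu⟩ := h1.exists_eq_range h
      obtain ⟨β', h'⟩ := exists_bound fun n => max β (u n)
      refine ⟨β', (le_max_left _ _).trans_lt (h' 0), fun x hx => ?_⟩
      have : x ∈ {x | (i, x) ∈ c.dom} := hx
      rw [hu] at this
      obtain ⟨n, rfl⟩ := this
      exact (le_max_right _ _).trans_lt (h' n)
  obtain ⟨e, he1, he2⟩ := countable_level i β' ∅
  obtain ⟨c', hc', b, hb⟩ := exists_nameEqFun CC.sigmaClosed β' g (c.union e)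
  refine ⟨c', hc'.trans (CC.union_le_left c e), β', hβ', h2, fun x hx => ?_, b, hb⟩
  exact hc'.1 (Or.inr ((he1 _).2 ⟨rfl, hx⟩))

/-- closing off: the `i`-th coordinate of some extension has an initial segment of `ω₁` as
domain, and the extension decides `g` on this segment -/
theorem close_off (i : I) (g : Om → ℕ → Set (CC I)) (c : CC I) (β : Om) :
    ∃ c' ≤ c, ∃ α, β ≤ α ∧ (∀ x, (i, x) ∈ c'.dom ↔ x < α) ∧ ∃ b, c' ∈ NameEqFun α g b := by
  choose f hf F hF h1 h2 B hB using fun z : CC I × Om => close_step i g z.1 z.2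
  let st : ℕ → CC I × Om := fun n => Nat.rec (c, β) (fun _ z => (f z, F z)) n
  have hst : ∀ n, st (n + 1) = (f (st n), F (st n)) := fun _ => rfl
  have hle : ∀ n, (st (n + 1)).1 ≤ (st n).1 := fun n => by rw [hst]; exact hf _
  have hlt : ∀ n, (st n).2 < (st (n + 1)).2 := fun n => by rw [hst]; exact hF _
  have hlim := CC.lim_le (fun n => (st n).1) hle
  refine ⟨CC.lim fun n => (st n).1, hlim 0, ub fun n => (st n).2,
    (lt_ub (fun n => (st n).2) 0).le, fun x => ?_, ?_⟩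
  · constructor
    · intro hx
      obtain ⟨n, hn⟩ := mem_iUnion.1 hx
      have h3 : x < (st (n + 1)).2 := by rw [hst]; exact h1 (st n) x hn
      exact h3.trans (lt_ub (fun n => (st n).2) (n + 1))
    · intro hx
      obtain ⟨n, hn⟩ := ub_le (fun n => (st n).2) hx
      have h3 : x < F (st n) := lt_of_le_of_lt hn (hF _)
      have h4 := h2 (st n) x h3
      exact mem_iUnion.2 ⟨n + 1, h4⟩
  · refine nameEqFun_lim _ _ (fun n => (st (n + 1)).2) (fun n => B (st n)) (fun n => ?_) ?_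
    · refine down_nameEqFun _ _ _ _ ?_ _ (hlim (n + 1))
      rw [hst]
      exact hB (st n)
    · intro x hx
      obtain ⟨n, hn⟩ := ub_le (fun n => (st n).2) hx
      exact ⟨n, lt_of_le_of_lt hn (hlt n)⟩

theorem exists_lub (l : ℕ → Om) : ∃ α : Om, ∀ x, x < α ↔ ∃ n, x < l n := by
  obtain ⟨a, ha⟩ := exists_bound l
  have hne : {a : Om | ∀ n, l n ≤ a}.Nonempty := ⟨a, fun n => (ha n).le⟩
  refine ⟨WellFounded.min (wellFounded_lt (α := Om)) _ hne, fun x => ⟨fun hx => ?_, ?_⟩⟩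
  · by_contra hc
    push Not at hc
    exact WellFounded.not_lt_min (wellFounded_lt (α := Om)) (s := {a | ∀ n, l n ≤ a}) hc hx
  · rintro ⟨n, hn⟩
    exact hn.trans_le (WellFounded.min_mem (wellFounded_lt (α := Om)) _ hne n)

end cohen

end Pool.Agent.L5helper89.CPS
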