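import Mathlib
import Pool.Agent.L5helper89.CPS.Force3

/-!
# Adding many Cohen subsets of `ω₁` forces the principle of `σ`-closed lifting
-/

set_option autoImplicit false

namespace Pool.Agent.L5helper89.CPS

open Cardinal Set
open Pool.Agent.Helper292.ForceCH (Om fnot fand fall fimp fiff fex fground meets IsFun IsOnto
  OmegaOnePreserved mem_fex mem_fimp down_meets down_fnot down_fand down_fex down_fimp Down
  meets_of_dense fimp_of fiff_of_decided SigmaClosed
  meet_countable decide_countable countable_Iio exists_bound ub lt_ub ub_le)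

variable {I : Type}

/-- the elements of the system -/
structure El (r : CC I) (i : I) (g : Om → ℕ → Set (CC I)) where
  c : CC I
  l : Om
  s : Om → Set ℕ
  le : c ≤ r
  dom_iff : ∀ x, (i, x) ∈ c.dom ↔ x < l
  dec : c ∈ NameEqFun l g s

/-- the system of the conditions which decide initial segments of the generic set with index `i`
and of `g` -/
def sysOf (r : CC I) (i : I) (g : Om → ℕ → Set (CC I)) : Sys where
  Q := El r i g
  ord :=
    { le := fun d' d => d'.c ≤ d.c ∧ d.l ≤ d'.l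
      le_refl := fun d => ⟨le_rfl, le_rfl⟩
      le_trans := fun a b c h h' => ⟨h.1.trans h'.1, h'.2.trans h.2⟩ }
  l := El.l
  p := fun d => {x | (i, x) ∈ d.c.val}
  s := El.s
  mono := fun d d' h => by
    obtain ⟨h1, h2⟩ : d'.c ≤ d.c ∧ d.l ≤ d'.l := h
    refine ⟨h2, fun x hx => ?_, ?_⟩
    · exact (h1.2 _ ((d.dom_iff x).2 hx)).symm
    · exact nameEqFun_unique (down_nameEqFun _ _ _ _ d.dec _ h1) (nameEqFun_mono h2 d'.dec)

theorem sysOf_le {r : CC I} {i : I} {g : Om → ℕ → Set (CC I)} {d' d : (sysOf r i g).Q} :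
    d' ≤ d ↔ d'.c ≤ d.c ∧ d.l ≤ d'.l := Iff.rfl

/-- compatibility of a condition with an extension of its restriction -/
theorem union_res_le {J : Set I} {c t : CC I} (h : t ≤ c.res J) (ht : ∀ z ∈ t.dom, z.1 ∈ J) :
    c.union t ≤ c ∧ c.union t ≤ t := by
  refine ⟨CC.union_le_left _ _, CC.union_le_right _ _ fun z hz hz' => ?_⟩
  exact (h.2 z ⟨hz, ht z hz'⟩).symm

theorem union_res_le' {J : Set I} {c t : CC I} (h : t ≤ c.res J) :
    c.union (t.res J) ≤ c ∧ c.union (t.res J) ≤ t.res J := by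
  refine union_res_le (J := J) (t := t.res J) ?_ fun z hz => hz.2
  exact (CC.res_mono J h).trans (CC.res_res J c)

theorem lifting_of_closed (R : Om → Set Om → (Om → Set ℕ) → Set (CC I)) (J : Set I) (i : I)
    (hi : i ∉ J) (q r₁ : CC I) (hq : ∀ z ∈ q.dom, z.1 ∈ J) (hr₁ : r₁ ≤ q)
    (hJ : ∀ w : CC I, (∀ z ∈ w.dom, z.1 ∈ J) → ∀ α a b, ∃ r ≤ w, (∀ z ∈ r.dom, z.1 ∈ J) ∧
      (r ∈ meets (R α a b) ∨ r ∈ fnot (meets (R α a b))))
    (g : Om → ℕ → Set (CC I)) (hg : ∀ α, r₁ ∈ NameRelated R α (gen i) g) :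
    ∃ r ≤ q, ∃ S : Sys, r ∈ fex fun D : S.Q → Set (CC I) =>
      fand (fex fun d => meets (D d))
      (fand (fall fun d => fimp (meets (D d)) (GroundRelated R (S.l d) (S.p d) (S.s d)))
      (fand (fall fun d => fall fun α => fall fun a : Set Om =>
          fimp (fand (meets (D d)) (fground (S.l d ≤ α ∧ EqBelow (S.l d) (S.p d) a)))
          (fex fun d' => fand (meets (D d')) (fground (d' ≤ d ∧ α ≤ S.l d' ∧ EqBelow α a (S.p d')))))
        (fall fun c : ℕ → S.Q =>
          fimp (fand (fall fun n => meets (D (c n))) (fground (∀ n, c (n + 1) ≤ c n)))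
          (fex fun d => fand (meets (D d))
            (fground ((∀ n, d ≤ c n) ∧ ∀ x < S.l d, ∃ n, x < S.l (c n))))))) := by
  -- restrictions to `J` of conditions forcing a fact about `R` force it
  have hres : ∀ (u : CC I) (α : Om) (a : Set Om) (b : Om → Set ℕ), u ∈ meets (R α a b) →
      u.res J ∈ meets (R α a b) := by
    intro u α a b hu
    by_contra hcon
    have h1 : ∃ w ≤ u.res J, ∀ v ≤ w, ∀ s ∈ R α a b, ¬ v ≤ s := by
      by_contra h2
      apply hcon
      intro w hw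
      by_contra h3
      apply h2
      refine ⟨w, hw, fun v hv s hs hvs => h3 ⟨v, hv, s, hs, hvs⟩⟩
    obtain ⟨w, hw, h1⟩ := h1
    have hwn : w ∈ fnot (meets (R α a b)) := by
      intro v hv hv'
      obtain ⟨v', hv'', s, hs, hs'⟩ := hv' v le_rfl
      exact h1 v' (hv''.trans hv) s hs hs'
    obtain ⟨r, hr, hrJ, h2⟩ := hJ (w.res J) (fun z hz => hz.2) α a b
    rcases h2 with h2 | h2
    · obtain ⟨k1, k2⟩ := union_res_le hr hrJ
      exact hwn _ k1 (down_meets _ _ h2 _ k2)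
    · have h3 : r ≤ u.res J := hr.trans ((CC.res_mono J hw).trans (CC.res_res J u))
      obtain ⟨k1, k2⟩ := union_res_le h3 hrJ
      exact h2 _ k2 (down_meets _ _ hu _ k1)
  -- the first element
  obtain ⟨c₀, hc₀, α₀, -, hdom₀, b₀, hb₀⟩ := close_off i g r₁ (Classical.arbitrary Om)
  let d₀ : El r₁ i g := ⟨c₀, α₀, b₀, hc₀, hdom₀, hb₀⟩
  have hr : c₀.res J ≤ q := by
    have h1 : c₀ ≤ q := hc₀.trans hr₁
    exact ⟨fun z hz => ⟨h1.1 hz, hq z hz⟩, fun z hz => h1.2 z hz⟩
  refine ⟨c₀.res J, hr, sysOf r₁ i g, ?_⟩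
  refine mem_fex.2 fun r hr'' => ⟨r, le_rfl, fun d => {(d.c).res J}, ?_, ?_, ?_, ?_⟩
  · refine mem_fex.2 fun t ht => ⟨t, le_rfl, d₀, ?_⟩
    exact mem_meets_singleton.2 (ht.trans hr'')
  · intro d
    refine fimp_of fun t ht htD => ?_
    have htd : t ≤ d.c.res J := mem_meets_singleton.1 htD
    refine mem_fex.2 fun t' ht' => ?_
    have htd' : t' ≤ d.c.res J := ht'.trans htd
    obtain ⟨k1, k2⟩ := union_res_le' htd'
    obtain ⟨u1, hu1, a', h1⟩ := mem_fex.1 (hg d.l) _ (k1.trans d.le)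
    obtain ⟨u2, hu2, b', h2, h3, h4⟩ := mem_fex.1 h1 u1 le_rfl
    have hu2d : u2 ≤ d.c := hu2.trans (hu1.trans k1)
    have hu2t : u2 ≤ t'.res J := hu2.trans (hu1.trans k2)
    have e1 : EqBelow d.l {x | (i, x) ∈ d.c.val} a' := by
      intro x hx
      have h5 := mem_of_nameEq h2 (fun x hx => hu2d.1 ((d.dom_iff x).2 hx)) x hx
      rw [h5]
      exact (hu2d.2 _ ((d.dom_iff x).2 hx)).symm
    have e2 : EqBelowFun d.l d.s b' := nameEqFun_unique (down_nameEqFun _ _ _ _ d.dec _ hu2d) h3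
    have h5 := hres u2 _ _ _ h4
    have h6 : u2.res J ≤ t'.res J := (CC.res_mono J hu2t).trans (CC.res_res J t')
    obtain ⟨m1, m2⟩ := union_res_le h6 fun z hz => hz.2
    refine ⟨t'.union (u2.res J), m1, a', ?_⟩
    refine mem_fex.2 fun v hv => ⟨v, le_rfl, b', ⟨e1, e2⟩, ?_⟩
    exact down_meets _ _ h5 _ (hv.trans m2)
  · intro d α a
    refine fimp_of fun t ht htD => ?_
    obtain ⟨htD, hα, ha⟩ : t ∈ meets {(d.c).res J} ∧ d.l ≤ α ∧
      EqBelow d.l {x | (i, x) ∈ d.c.val} a := htD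
    have htd : t ≤ d.c.res J := mem_meets_singleton.1 htD
    refine mem_fex.2 fun t' ht' => ?_
    have htd' : t' ≤ d.c.res J := ht'.trans htd
    obtain ⟨k1, k2⟩ := union_res_le' htd'
    obtain ⟨e, he1, he2⟩ := countable_level i α a
    obtain ⟨c', hc', β, hβ, hdom, b, hb⟩ := close_off i g ((d.c.union (t'.res J)).union e) α
    have hc1 : c' ≤ d.c.union (t'.res J) := hc'.trans (CC.union_le_left _ _)
    have hcd : c' ≤ d.c := hc1.trans k1
    let d' : El r₁ i g := ⟨c', β, b, hcd.trans d.le, hdom, hb⟩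
    have h6 : c'.res J ≤ t'.res J := (CC.res_mono J (hc1.trans k2)).trans (CC.res_res J t')
    obtain ⟨m1, m2⟩ := union_res_le h6 fun z hz => hz.2
    refine ⟨t'.union (c'.res J), m1, d', mem_meets_singleton.2 m2, ⟨hcd, hα.trans hβ⟩, hβ, ?_⟩
    intro x hx
    have h7 : (i, x) ∈ e.dom := (he1 _).2 ⟨rfl, hx⟩
    have h8 : (i, x) ∈ ((d.c.union (t'.res J)).union e).dom := Or.inr h7
    have h9 : (i, x) ∈ c'.val ↔ (i, x) ∈ ((d.c.union (t'.res J)).union e).val := hc'.2 _ h8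
    show x ∈ a ↔ (i, x) ∈ c'.val
    rw [h9]
    by_cases hxd : x < d.l
    · have h10 : (i, x) ∈ d.c.dom := (d.dom_iff x).2 hxd
      have h11 : (i, x) ∈ (d.c.union (t'.res J)).dom := Or.inl h10
      have h12 := (CC.union_le_left (d.c.union (t'.res J)) e).2 _ h11
      have h13 := k1.2 _ h10
      have h14 := ha x hxd
      rw [h12, h13]
      exact h14.symm
    · have h10 : (i, x) ∉ (d.c.union (t'.res J)).dom := by
        rintro (h | h)
        · exact hxd ((d.dom_iff x).1 h)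
        · exact hi h.2
      constructor
      · intro hxa
        exact Or.inr ⟨h10, (he2 _).2 hxa⟩
      · rintro (h | h)
        · exact absurd h.1 h10
        · exact (he2 _).1 h.2
  · intro c
    refine fimp_of fun t ht htD => ?_
    obtain ⟨htD, hc⟩ : (∀ n, t ∈ meets {((c n).c).res J}) ∧ ∀ n, c (n + 1) ≤ c n := htD
    have hc1 : ∀ n, (c (n + 1)).c ≤ (c n).c := fun n => (sysOf_le.1 (hc n)).1
    have hlim := CC.lim_le (fun n => (c n).c) hc1
    obtain ⟨α, hα⟩ := exists_lub fun n => (c n).l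
    obtain ⟨b, hb⟩ := nameEqFun_lim (g := g) (CC.lim fun n => (c n).c) α (fun n => (c n).l)
      (fun n => (c n).s) (fun n => down_nameEqFun _ _ _ _ (c n).dec _ (hlim n))
      (fun x hx => (hα x).1 hx)
    let d : El r₁ i g := ⟨CC.lim fun n => (c n).c, α, b, (hlim 0).trans (c 0).le, fun x => by
      rw [hα]
      constructor
      · intro hx
        obtain ⟨n, hn⟩ := mem_iUnion.1 hx
        exact ⟨n, ((c n).dom_iff x).1 hn⟩
      · rintro ⟨n, hn⟩
        exact mem_iUnion.2 ⟨n, ((c n).dom_iff x).2 hn⟩, hb⟩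
    refine mem_fex.2 fun t' ht' => ⟨t', le_rfl, d, mem_meets_singleton.2 ?_, fun n => ?_, ?_⟩
    · have h1 : ∀ n, t' ≤ (c n).c.res J := fun n => ht'.trans (mem_meets_singleton.1 (htD n))
      refine ⟨fun z hz => ?_, fun z hz => ?_⟩
      · obtain ⟨n, hn⟩ := mem_iUnion.1 hz.1
        exact (h1 n).1 ⟨hn, hz.2⟩
      · obtain ⟨n, hn⟩ := mem_iUnion.1 hz.1
        have h2 := (h1 n).2 z ⟨hn, hz.2⟩
        have h3 := (hlim n).2 z hn
        exact h2.trans h3.symm
    · refine sysOf_le.2 ⟨hlim n, ?_⟩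
      by_contra hcon
      have h1 : α < (c n).l := not_le.1 hcon
      exact lt_irrefl _ ((hα α).2 ⟨n, h1⟩)
    · exact fun x hx => (hα x).1 hx

theorem aleph1_mul : (ℵ₁ : Cardinal.{0}) * ℵ₀ = ℵ₁ :=
  mul_eq_left (aleph0_le_aleph 1) (aleph0_le_aleph 1) aleph0_ne_zero

theorem mk_Om : #Om = ℵ₁ := by simp

/-- The forcing notion adding more than `2^{ω₁}` Cohen subsets of `ω₁` forces the principle of
`σ`-closed lifting. -/
theorem liftingHolds (hI : #(Set Om) < #I) (p : CC I) : p ∈ LiftingHolds (CC I) := by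
  intro R
  refine fimp_of fun p₁ _ hA => ?_
  refine mem_fex.2 fun q hq => ?_
  -- cardinal arithmetic
  have hκ0 : #(Set Om) = 2 ^ (ℵ₁ : Cardinal.{0}) := by rw [mk_set, mk_Om]
  have hκ : #(Set Om) ^ (ℵ₀ : Cardinal.{0}) = #(Set Om) := by
    rw [hκ0, ← power_mul, aleph1_mul]
  have h0 : ℵ₀ ≤ #(Set Om) := by
    rw [hκ0]
    exact (aleph0_le_aleph 1).trans (cantor _).le
  have hOm : #(Set (ℕ × Om)) ≤ #(Set Om) := by
    rw [mk_set, hκ0, mk_prod, lift_id, lift_id, mk_Om, mk_nat, mul_comm, aleph1_mul]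
  have hX : #(Om × Set Om × (Om → Set ℕ)) ≤ #(Set Om) := by
    have e : #(Om × Set Om × (Om → Set ℕ)) = #Om * (#(Set Om) * #(Om → Set ℕ)) := by
      simp only [mk_prod, lift_id]
    have e1 : #(Om → Set ℕ) = #(Set Om) := by
      rw [mk_arrow, lift_id, lift_id, mk_set, mk_nat, mk_Om, hκ0, ← power_mul, mul_comm,
        aleph1_mul]
    have e2 : #Om ≤ #(Set Om) := by
      rw [hκ0, mk_Om]
      exact (cantor _).le
    rw [e, e1]
    exact mul_le_of_le h0 e2 (mul_le_of_le h0 le_rfl le_rfl)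
  -- deciding function
  have hdec : ∀ (w : CC I) (x : Om × Set Om × (Om → Set ℕ)), ∃ r ≤ w,
      r ∈ meets (R x.1 x.2.1 x.2.2) ∨ r ∈ fnot (meets (R x.1 x.2.1 x.2.2)) := by
    intro w x
    by_cases h : ∃ t ≤ w, t ∈ meets (R x.1 x.2.1 x.2.2)
    · obtain ⟨t, ht, h1⟩ := h
      exact ⟨t, ht, Or.inl h1⟩
    · exact ⟨w, le_rfl, Or.inr fun t ht h1 => h ⟨t, ht, h1⟩⟩
  choose f hf hf' using hdec
  obtain ⟨J, ⟨i, hi⟩, hqJ, hJ⟩ := exists_closed hκ h0 hX hOm hI q f
  obtain ⟨r₁, hr₁, g, hg⟩ := mem_fex.1 (hA (gen i)) q hq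
  refine lifting_of_closed R J i hi q r₁ hqJ hr₁ ?_ g hg
  intro w hw α a b
  obtain ⟨w', h1, h2, h3⟩ := hJ w hw
  exact ⟨f w' (α, a, b), (hf w' (α, a, b)).trans h1, h3 (α, a, b), hf' w' (α, a, b)⟩

/-- There is a `σ`-closed forcing notion such that all conditions force: `ω₁` is preserved, there
are no new countable sequences of ground model objects, and the principle of `σ`-closed lifting
holds. -/
theorem exists_forcing : ∃ (P : Type) (_ : Preorder P), Nonempty P ∧ ∀ p : P,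
    p ∈ OmegaOnePreserved P ∧ p ∈ NoNewSequences P ∧ p ∈ LiftingHolds P := by
  refine ⟨CC (Set (Set Om)), inferInstance, inferInstance, fun p =>
    ⟨omegaOnePreserved_of CC.sigmaClosed p, noNewSequences_of CC.sigmaClosed p,
      liftingHolds ?_ p⟩⟩
  have h : #(Set (Set Om)) = 2 ^ #(Set Om) := mk_set
  rw [h]
  exact cantor _

end Pool.Agent.L5helper89.CPS
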