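import Mathlib
import Pool.Agent.L5helper89.CPS.Defs

/-!
# The lifting principle in the forcing language

For the one-point forcing notion, which adds nothing, the sentence `LiftingHolds` of the forcing
language is equivalent to the principle `SigmaLifting`.
-/

set_option autoImplicit false

namespace Pool.Agent.L5helper89.CPS

open Pool.Agent.Helper292.ForceCH (Om fnot fand fall fimp fiff fex fground meets IsFun)

theorem unit_fnot {φ : Set Unit} : () ∈ fnot φ ↔ () ∉ φ :=
  ⟨fun h => h () le_rfl, fun h _ _ => h⟩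

theorem unit_fand {φ ψ : Set Unit} : () ∈ fand φ ψ ↔ () ∈ φ ∧ () ∈ ψ := Iff.rfl

theorem unit_fall {ι : Sort*} {φ : ι → Set Unit} : () ∈ fall φ ↔ ∀ i, () ∈ φ i := Iff.rfl

theorem unit_fimp {φ ψ : Set Unit} : () ∈ fimp φ ψ ↔ (() ∈ φ → () ∈ ψ) := by
  unfold fimp
  rw [unit_fnot, unit_fand, unit_fnot]
  tauto

theorem unit_fiff {φ ψ : Set Unit} : () ∈ fiff φ ψ ↔ (() ∈ φ ↔ () ∈ ψ) := by
  unfold fiff
  rw [unit_fand, unit_fimp, unit_fimp]
  tauto

theorem unit_fex {ι : Sort*} {φ : ι → Set Unit} : () ∈ fex φ ↔ ∃ i, () ∈ φ i := by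
  unfold fex
  rw [unit_fnot, unit_fall]
  simp only [unit_fnot]
  push Not
  rfl

theorem unit_fground {h : Prop} : () ∈ (fground h : Set Unit) ↔ h := Iff.rfl

theorem unit_meets {N : Set Unit} : () ∈ meets N ↔ () ∈ N := by
  constructor
  · intro h
    obtain ⟨r, -, s, hs, -⟩ := h () le_rfl
    exact hs
  · intro h q _
    exact ⟨q, le_rfl, (), h, le_rfl⟩

/-- For the one-point forcing notion `LiftingHolds` says that `SigmaLifting` holds. -/
theorem liftingHolds_unit : () ∈ LiftingHolds Unit ↔ SigmaLifting := by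
  unfold LiftingHolds NameRelated GroundRelated NameEq NameEqFun
  simp only [unit_fall, unit_fex, unit_fimp, unit_fand, unit_fiff, unit_fground, unit_meets]
  constructor
  · intro h R hR
    obtain ⟨S, D, h1, h2, h3, h4⟩ := h (fun α a b => {_u | R α a b}) (by
      intro y
      obtain ⟨b, hb⟩ := hR {x | () ∈ y x}
      refine ⟨fun x n => {_u | n ∈ b x}, fun α => ?_⟩
      obtain ⟨a', b', ha, hb', hR'⟩ := hb α
      refine ⟨a', b', fun x hx => ha x hx, fun x hx n => ?_, hR'⟩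
      change n ∈ b x ↔ n ∈ b' x
      rw [hb' x hx])
    refine ⟨S, {d | () ∈ D d}, h1, ?_, h3, h4⟩
    intro d hd
    obtain ⟨a', b', ⟨ha, hb⟩, hR'⟩ := h2 d hd
    exact ⟨a', b', ha, hb, hR'⟩
  · intro h R hR
    obtain ⟨S, D, h1, h2, h3, h4⟩ := h (fun α a b => () ∈ R α a b) (by
      intro a
      obtain ⟨g, hg⟩ := hR (fun x => {_u | x ∈ a})
      refine ⟨fun x => {n | () ∈ g x n}, fun α => ?_⟩
      obtain ⟨a', b', ha, hb', hR'⟩ := hg α
      refine ⟨a', b', fun x hx => ha x hx, fun x hx => ?_, hR'⟩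
      ext n
      exact hb' x hx n)
    refine ⟨S, fun d => {_u | d ∈ D}, h1, ?_, h3, h4⟩
    intro d hd
    obtain ⟨a', b', ha, hb, hR'⟩ := h2 d hd
    exact ⟨a', b', ⟨ha, hb⟩, hR'⟩

end Pool.Agent.L5helper89.CPS
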