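import Mathlib
import Pool.Agent.Helper332.SAD.SpaceDefs
import Pool.Agent.Helper937.Dya3

/-!
# Scattered compact spaces: countable images, and the pattern contradiction
-/

set_option autoImplicit false

namespace Pool.Agent.L5helper89.CPS

open Set Topology Filter
open Pool.Agent.Helper332.SADSpace (Scattered)
open Pool.Agent.Helper937.Dya (Cp)

/-- A continuous image of a scattered compact space in the countable power of the line is
countable. -/
theorem countable_range_of_scattered {K : Type} [TopologicalSpace K] [CompactSpace K] [T2Space K]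
    (hK : Scattered K) (F : K → ℕ → ℝ) (hF : Continuous F) : (range F).Countable := by
  by_contra hunc
  have hcl : IsClosed (range F) := (isCompact_range hF).isClosed
  obtain ⟨P, hP, hPne, hPF⟩ := exists_perfect_nonempty_of_isClosed_of_not_countable hcl hunc
  let D : Set K := F ⁻¹' P
  have hDc : IsClosed D := hP.closed.preimage hF
  have : CompactSpace D := isCompact_iff_compactSpace.mp hDc.isCompact
  let X : D → P := fun d => ⟨F d.1, d.2⟩
  have hX : Continuous X := (hF.comp continuous_subtype_val).subtype_mk _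
  have hXs : Function.Surjective X := by
    rintro ⟨y, hy⟩
    obtain ⟨k, rfl⟩ := hPF hy
    exact ⟨⟨k, hy⟩, rfl⟩
  obtain ⟨E, hE, hEon, hEmin⟩ := exists_compact_surjective_zorn_subset hX hXs
  have hEc : IsCompact E := isCompact_iff_compactSpace.mpr hE
  -- an isolated point of `E`
  have hEne : E.Nonempty := by
    obtain ⟨y, hy⟩ := hPne
    have : (⟨y, hy⟩ : P) ∈ X '' E := by rw [hEon]; exact mem_univ _
    obtain ⟨d, hd, -⟩ := this
    exact ⟨d, hd⟩
  obtain ⟨x, hx, U, hU, hUx⟩ := hK ((fun d : D => d.1) '' E) (hEne.image _)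
  obtain ⟨e, heE, rfl⟩ := hx
  let E₀ : Set E := {d | d.1.1 ∉ U}
  have heU : e.1 ∈ U := by
    have : e.1 ∈ U ∩ (fun d : D => d.1) '' E := by rw [hUx]; exact rfl
    exact this.1
  have h1 : E₀ ≠ univ := by
    intro h
    have : (⟨e, heE⟩ : E) ∈ E₀ := by rw [h]; exact mem_univ _
    exact this heU
  have h2 : IsClosed E₀ :=
    (hU.isClosed_compl).preimage (continuous_subtype_val.comp continuous_subtype_val)
  have h3 := hEmin E₀ h1 h2
  have h4 : IsClosed (E.domRestrict X '' E₀) := by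
    apply IsCompact.isClosed
    apply h2.isCompact.image
    exact hX.comp continuous_subtype_val
  -- the complement of the image is the singleton
  have h5 : ∀ y, y ∉ E.domRestrict X '' E₀ → y = X e := by
    intro y hy
    have : y ∈ X '' E := by rw [hEon]; exact mem_univ _
    obtain ⟨d, hd, rfl⟩ := this
    by_contra hne
    apply hy
    refine ⟨⟨d, hd⟩, ?_, rfl⟩
    intro hdU
    have h6 : d.1 ∈ U ∩ (fun d : D => d.1) '' E := ⟨hdU, d, hd, rfl⟩
    rw [hUx] at h6
    exact hne (congrArg X (Subtype.ext h6))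
  obtain ⟨y, hy⟩ := (ne_univ_iff_exists_notMem _).mp h3
  have hye := h5 y hy
  subst hye
  -- so `X e` is isolated in `P`
  obtain ⟨V, hV, hVeq⟩ := isOpen_induced_iff.mp h4.isOpen_compl
  have hacc := hP.acc _ (X e).2
  rw [accPt_iff_nhds] at hacc
  have hVe : (X e).1 ∈ V := by
    have : X e ∈ Subtype.val ⁻¹' V := by rw [hVeq]; exact hy
    exact this
  obtain ⟨z, ⟨hzV, hzP⟩, hzne⟩ := hacc V (hV.mem_nhds hVe)
  apply hzne
  have h7 : (⟨z, hzP⟩ : P) ∈ (E.domRestrict X '' E₀)ᶜ := by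
    rw [← hVeq]; exact hzV
  exact congrArg Subtype.val (h5 _ h7)

/-- The set of the subsets of `ℕ` which contain `0` is not countable. -/
theorem not_countable_containing_zero : ¬ {A : Set ℕ | 0 ∈ A}.Countable := by
  intro h
  have h1 : (univ : Set (Set ℕ)).Countable := by
    have : (univ : Set (Set ℕ)) ⊆ (fun A : Set ℕ => {m | m + 1 ∈ A}) '' {A : Set ℕ | 0 ∈ A} := by
      intro B _
      refine ⟨insert 0 {m | ∃ k ∈ B, m = k + 1}, mem_insert _ _, ?_⟩
      ext m
      simp only [mem_insert_iff, mem_ofPred_eq]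
      constructor
      · rintro (h | ⟨k, hk, h⟩)
        · omega
        · have : m = k := by omega
          rw [this]; exact hk
      · intro hm
        exact Or.inr ⟨m, hm, rfl⟩
    exact (h.image _).mono this
  rw [countable_univ_iff] at h1
  obtain ⟨f, hf⟩ := exists_surjective_nat (Set ℕ)
  exact Function.cantor_surjective f hf

/-- The pattern contradiction: in a scattered compact space there are no continuous functions
`g m` and no parameters `(z n, r n)` with the listed separation property for all finite patterns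
`C n` containing `0`. -/
theorem pattern_false {K : Type} [TopologicalSpace K] [CompactSpace K] [T2Space K]
    (hK : Scattered K) (g : ℕ → Cp K) (N : ℕ) (δ : ℚ) (hδ : 0 < δ) (C : ℕ → Finset ℕ)
    (h0 : ∀ n, 0 ∈ C n)
    (hC : ∀ A : Set ℕ, 0 ∈ A → ∀ k, ∃ n, k ≤ n ∧ ∀ m < k, (m ∈ C n ↔ m ∈ A))
    (z : ℕ → Fin N → K) (r : ℕ → Fin N → ℝ)
    (hin : ∀ n, ∀ m ∈ C n, ∀ j, |(g m).1 (z n j) - r n j| < δ)
    (hout : ∀ n, ∀ m < n, m ∉ C n → ∃ j, 2 * δ ≤ |(g m).1 (z n j) - r n j|) : False := by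
  let F : K → ℕ → ℝ := fun k m => (g m).1 k
  have hF : Continuous F := continuous_pi fun m => (g m).2
  have hcount := countable_range_of_scattered hK F hF
  have : Countable (range F) := hcount.to_subtype
  let Φ : (Fin N → range F) × (Fin N → ℚ) → Set ℕ :=
    fun t => {m | ∀ j, |(t.1 j).1 m - t.2 j| < 3 * δ / 2}
  apply not_countable_containing_zero
  refine (countable_range Φ).mono ?_
  intro A hA
  have hδ' : (0 : ℝ) < δ := by exact_mod_cast hδ
  -- the filter
  let W : ℕ → Set ℕ := fun k => {n | k ≤ n ∧ ∀ m < k, (m ∈ C n ↔ m ∈ A)}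
  have hWne : ∀ k, (W k).Nonempty := fun k => hC A hA k
  have hWanti : Antitone W := by
    intro k k' hkk' n hn
    exact ⟨hkk'.trans hn.1, fun m hm => hn.2 m (hm.trans_le hkk')⟩
  have hne : NeBot (⨅ k, 𝓟 (W k)) := by
    refine iInf_neBot_of_directed ?_ fun k => principal_neBot_iff.mpr (hWne k)
    exact directed_of_isDirected_le fun a b h => principal_mono.mpr (hWanti h)
  let 𝒰 : Ultrafilter ℕ := Ultrafilter.of (⨅ k, 𝓟 (W k))
  have h𝒰 : (𝒰 : Filter ℕ) ≤ ⨅ k, 𝓟 (W k) := Ultrafilter.of_le _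
  have hmemW : ∀ k, W k ∈ (𝒰 : Filter ℕ) := fun k =>
    h𝒰 (mem_iInf_of_mem k (mem_principal_self _))
  -- limits of the points
  have hz : ∀ j, ∃ x : K, Tendsto (fun n => z n j) 𝒰 (𝓝 x) := by
    intro j
    obtain ⟨x, -, hx⟩ := isCompact_univ.ultrafilter_le_nhds (𝒰.map fun n => z n j)
      (by simp)
    exact ⟨x, hx⟩
  choose x hx using hz
  obtain ⟨M, hM⟩ : ∃ M, ∀ k, |(g 0).1 k| ≤ M := by
    have h1 : Continuous fun k => |(g 0).1 k| := (g 0).2.abs
    obtain ⟨M, hM⟩ := (isCompact_range h1).bddAbove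
    exact ⟨M, fun k => hM ⟨k, rfl⟩⟩
  have hrb : ∀ n j, r n j ∈ Icc (-(M + δ)) (M + δ) := by
    intro n j
    have h1 := hin n 0 (h0 n) j
    have h2 := hM (z n j)
    rw [abs_lt] at h1
    rw [abs_le] at h2
    constructor <;> linarith [h1.1, h1.2, h2.1, h2.2]
  have hr : ∀ j, ∃ ρ : ℝ, Tendsto (fun n => r n j) 𝒰 (𝓝 ρ) := by
    intro j
    obtain ⟨ρ, -, hρ⟩ := (isCompact_Icc (a := -(M + δ)) (b := M + (δ : ℝ))).ultrafilter_le_nhds
      (𝒰.map fun n => r n j) (by
        rw [le_principal_iff]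
        exact mem_map.mpr (univ_mem' fun n => hrb n j))
    exact ⟨ρ, hρ⟩
  choose ρ hρ using hr
  have hlim : ∀ m j, Tendsto (fun n => |(g m).1 (z n j) - r n j|) 𝒰 (𝓝 |(g m).1 (x j) - ρ j|) := by
    intro m j
    exact ((((g m).2.tendsto (x j)).comp (hx j)).sub (hρ j)).abs
  have hq : ∀ j, ∃ q : ℚ, |(q : ℝ) - ρ j| < δ / 2 := by
    intro j
    obtain ⟨q, hq1, hq2⟩ := exists_rat_btwn (show ρ j - (δ : ℝ) / 2 < ρ j + δ / 2 by linarith)
    refine ⟨q, ?_⟩
    rw [abs_lt]
    constructor <;> linarith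
  choose q hq using hq
  refine ⟨(fun j => ⟨F (x j), x j, rfl⟩, q), ?_⟩
  ext m
  simp only [Φ, mem_ofPred_eq]
  have hmem : ∀ᶠ n in (𝒰 : Filter ℕ), m < n ∧ (m ∈ C n ↔ m ∈ A) := by
    filter_upwards [hmemW (m + 1)] with n hn
    exact ⟨hn.1, hn.2 m (Nat.lt_succ_self m)⟩
  constructor
  · intro hall
    by_contra hmA
    have h1 : ∀ᶠ n in (𝒰 : Filter ℕ), ∃ j, 2 * (δ : ℝ) ≤ |(g m).1 (z n j) - r n j| := by
      filter_upwards [hmem] with n hn
      exact hout n m hn.1 (fun h => hmA (hn.2.mp h))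
    rw [Ultrafilter.eventually_exists_iff] at h1
    obtain ⟨j, hj⟩ := h1
    have h2 : 2 * (δ : ℝ) ≤ |(g m).1 (x j) - ρ j| := ge_of_tendsto (hlim m j) hj
    have h3 := hall j
    have h4 : |(g m).1 (x j) - ρ j| ≤ |(g m).1 (x j) - q j| + |(q j : ℝ) - ρ j| :=
      abs_sub_le _ _ _
    have h5 := hq j
    change |(g m).1 (x j) - q j| < 3 * δ / 2 at h3
    linarith
  · intro hmA j
    have h1 : ∀ᶠ n in (𝒰 : Filter ℕ), |(g m).1 (z n j) - r n j| ≤ δ := by
      filter_upwards [hmem] with n hn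
      exact (hin n m (hn.2.mpr hmA) j).le
    have h2 : |(g m).1 (x j) - ρ j| ≤ δ := le_of_tendsto (hlim m j) h1
    have h4 : |(g m).1 (x j) - q j| ≤ |(g m).1 (x j) - ρ j| + |ρ j - (q j : ℝ)| :=
      abs_sub_le _ _ _
    have h5 := hq j
    rw [abs_sub_comm] at h5
    change |(g m).1 (x j) - q j| < 3 * δ / 2
    linarith

end Pool.Agent.L5helper89.CPS
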