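import Mathlib
import Pool.Agent.L5helper89.CPS.Board
import Pool.Agent.L5helper89.CPS.Scat

/-!
# Compact continuous images of `C_p(K)` for scattered `K` under the lifting principle
-/

set_option autoImplicit false

namespace Pool.Agent.L5helper89.CPS

open Set Topology Filter Cardinal
open Pool.Agent.Helper292.ForceCH (Om)
open Pool.Agent.Helper937.Dya Pool.Agent.Helper937.Fact
open Pool.Agent.Helper332.SADSpace (Scattered)

theorem mk_Om' : #Om = ℵ₁ := by simp

/-- A compact continuous image of `C_p(K)` which is not metrizable gives `ω₁` independent pairs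
of subsets of `C_p(K)`, each with countably many coordinates. -/
theorem exists_frame (K : Type) [TopologicalSpace K] [CompactSpace K] [T2Space K] [Nonempty K]
    (Y : Type) [TopologicalSpace Y] [CompactSpace Y] [T2Space Y] (φ : Cp K → Y)
    (hφ : Continuous φ) (hs : Function.Surjective φ)
    (hY : ¬ TopologicalSpace.MetrizableSpace Y) :
    ∃ (pt : Om → ℕ → K) (Z : Om → Prop → Set (Cp K)),
      (∀ y : Set Om, ∃ g, ∀ x, g ∈ Z x (x ∈ y)) ∧
      ∀ x c g, g ∈ Z x c → ∃ (N : ℕ) (δ : ℚ) (e : Fin N → ℕ × ℚ), 0 < δ ∧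
        (∀ j, |g.1 (pt x (e j).1) - (e j).2| < δ) ∧
        ∀ g' ∈ Z x (¬ c), ∃ j, 2 * (δ : ℝ) ≤ |g'.1 (pt x (e j).1) - (e j).2| := by
  classical
  let e : Cp K → K → ℝ := fun f => f.1
  have hd : DenseRange e := denseRange_Cp K
  have he : IsInducing e := IsInducing.subtypeVal
  have hg : ¬ ∃ A : Set K, A.Countable ∧ Good e φ A := by
    rintro ⟨A, hA, hgood⟩
    exact hY (metrizable_of_good e φ he hφ hs A hA hgood)
  obtain ⟨J, hJ, hsep, hpat⟩ := dichotomy e φ hd hg
  have hur : ∀ p ∈ J, ∃ (f : C(Y, ℝ)) (A : Set K), A.Countable ∧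
      EqOn f 0 (Cl e φ p.1 p.2.1) ∧ EqOn f 1 (Cl e φ p.1 p.2.2) ∧
      ∀ (s : Cp K) (U : Set ℝ), IsOpen U → f (φ s) ∈ U →
        ∃ (G : Finset K) (b : K → BB), (G : Set K) ⊆ A ∧ e s ∈ Box G b ∧
          ∀ z : Cp K, e z ∈ Box G b → f (φ z) ∈ U := by
    intro p hp
    obtain ⟨f, h1, h2, h3⟩ := exists_continuous_zero_one_of_isClosed
      (s := Cl e φ p.1 p.2.1) (t := Cl e φ p.1 p.2.2) isClosed_closure isClosed_closure (hsep p hp)
    have hK : CTight (Set.Icc (0:ℝ) 1) := by
      intro A x hx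
      obtain ⟨s, hs, hs2⟩ := mem_closure_iff_seq_limit.mp hx
      refine ⟨range s, range_subset_iff.mpr hs, countable_range s, ?_⟩
      exact mem_closure_of_tendsto hs2 (Filter.Eventually.of_forall fun n => mem_range_self n)
    let ψ : Cp K → Set.Icc (0:ℝ) 1 := fun s => ⟨f (φ s), h3 (φ s)⟩
    have hψ : Continuous ψ := (f.continuous.comp hφ).subtype_mk _
    obtain ⟨A, hA, hfac⟩ := factor e ψ he hd hK hψ
    refine ⟨f, A, hA, h1, h2, fun s U hU hsU => ?_⟩
    obtain ⟨G, b, hG, hb, himg⟩ := hfac s (Subtype.val ⁻¹' U) (hU.preimage continuous_subtype_val) hsU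
    exact ⟨G, b, hG, hb, fun z hz => himg z hz⟩
  choose! f A hAc hf0 hf1 hfac using hur
  have hcard : #Om ≤ #J := by
    rw [mk_Om']
    have : ℵ₀ < #J := by
      rw [← not_le, Cardinal.le_aleph0_iff_set_countable]
      exact hJ
    rw [← Cardinal.succ_aleph0]
    exact Order.succ_le_of_lt this
  obtain ⟨q⟩ : Nonempty (Om ↪ J) := hcard
  have hen : ∀ x : Om, ∃ s : ℕ → K, A (q x).1 ⊆ range s := by
    intro x
    obtain ⟨s, hs⟩ := ((hAc _ (q x).2).insert (Classical.arbitrary K)).exists_eq_range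
      (insert_nonempty _ _)
    exact ⟨s, fun k hk => by rw [← hs]; exact mem_insert_of_mem _ hk⟩
  choose pt hpt using hen
  refine ⟨pt, fun x c => {g | f (q x).1 (φ g) = if c then 1 else 0}, ?_, ?_⟩
  · intro y
    obtain ⟨k, hk⟩ := hpat {p | ∃ x ∈ y, p = (q x).1}
    obtain ⟨g, rfl⟩ := hs k
    refine ⟨g, fun x => ?_⟩
    by_cases hx : x ∈ y
    · simp only [mem_ofPred_eq, hx, if_true]
      exact hf1 _ (q x).2 ((hk _ (q x).2).1 ⟨x, hx, rfl⟩)
    · simp only [mem_ofPred_eq, hx, if_false]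
      refine hf0 _ (q x).2 ((hk _ (q x).2).2 ?_)
      rintro ⟨x', hx', heq⟩
      have := q.injective (Subtype.ext heq)
      rw [this] at hx
      exact hx hx'
  · intro x c g hgc
    -- a neighbourhood of `g` on which the function is close to its value
    obtain ⟨G, b, hGA, hgb, hU⟩ : ∃ (G : Finset K) (b : K → BB), (G : Set K) ⊆ A (q x).1 ∧
        e g ∈ Box G b ∧ ∀ z : Cp K, e z ∈ Box G b →
          ¬ (f (q x).1 (φ z) = if ¬ c then 1 else 0) := by
      by_cases hc : c
      · simp only [mem_ofPred_eq, hc, if_true] at hgc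
        obtain ⟨G, b, h1, h2, h3⟩ := hfac _ (q x).2 g (Ioi (1/2 : ℝ)) isOpen_Ioi
          (by rw [hgc]; simp only [mem_Ioi]; norm_num)
        refine ⟨G, b, h1, h2, fun z hz => ?_⟩
        have := h3 z hz
        simp only [mem_Ioi] at this
        simp only [hc, not_true_eq_false, if_false]
        linarith
      · simp only [mem_ofPred_eq, hc, if_false] at hgc
        obtain ⟨G, b, h1, h2, h3⟩ := hfac _ (q x).2 g (Iio (1/2 : ℝ)) isOpen_Iio
          (by rw [hgc]; simp only [mem_Iio]; norm_num)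
        refine ⟨G, b, h1, h2, fun z hz => ?_⟩
        have := h3 z hz
        simp only [mem_Iio] at this
        simp only [hc, not_false_eq_true, if_true]
        linarith
    have hball : ∀ t ∈ G, ∃ ε > 0, ∀ y : ℝ, |y - g.1 t| < ε → y ∈ (b t : Set ℝ) := by
      intro t ht
      obtain ⟨ε, hε, hball⟩ := Metric.isOpen_iff.mp (BB_open (b t)) (g.1 t) (hgb t ht)
      exact ⟨ε, hε, fun y hy => hball (by rw [Metric.mem_ball, Real.dist_eq]; exact hy)⟩
    choose! ε hε hball using hball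
    obtain ⟨η, hη, hηε⟩ : ∃ η > 0, ∀ t ∈ G, η ≤ ε t := by
      rcases G.eq_empty_or_nonempty with h | h
      · exact ⟨1, one_pos, by simp [h]⟩
      · obtain ⟨t, ht, hmin⟩ := G.exists_min_image ε h
        exact ⟨ε t, hε t ht, hmin⟩
    obtain ⟨δ, hδ0, hδ⟩ := exists_rat_btwn (show (0 : ℝ) < η / 3 by linarith)
    have hrat : ∀ t : K, ∃ r : ℚ, |g.1 t - r| < δ := by
      intro t
      obtain ⟨r, hr1, hr2⟩ := exists_rat_btwn (show g.1 t - (δ : ℝ) < g.1 t + δ by linarith)
      refine ⟨r, ?_⟩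
      rw [abs_lt]
      constructor <;> linarith
    choose r hr using hrat
    have hidx : ∀ t ∈ G, ∃ i : ℕ, pt x i = t := fun t ht => hpt x (hGA ht)
    choose! idx hidx using hidx
    refine ⟨G.card, δ, fun j => (idx (G.equivFin.symm j), r (G.equivFin.symm j)),
      by exact_mod_cast hδ0, fun j => ?_, fun g' hg' => ?_⟩
    · simp only
      rw [hidx _ (G.equivFin.symm j).2]
      exact hr _
    · by_contra hcon
      push Not at hcon
      have hg'' : f (q x).1 (φ g') = if ¬ c then 1 else 0 := by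
        simp only [mem_ofPred_eq] at hg'
        rw [hg']
        congr
      refine hU g' (fun t ht => hball t ht _ ?_) hg''
      have h1 := hcon (G.equivFin ⟨t, ht⟩)
      simp only [Equiv.symm_apply_apply] at h1
      rw [hidx t ht] at h1
      have h2 := hr t
      rw [abs_lt] at h1 h2 ⊢
      have h3 := hηε t ht
      change -(ε t) < g'.1 t - g.1 t ∧ g'.1 t - g.1 t < ε t
      constructor <;> linarith [h1.1, h1.2, h2.1, h2.2]

/-- The countably many bits which code the values of `g` at the points of the layer `x`. -/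
def bits {K : Type} [TopologicalSpace K] (pt : Om → ℕ → K) (g : Cp K) (x : Om) : Set ℕ :=
  {n | ∃ t : ℕ × ℚ, Encodable.encode t = n ∧ g.1 (pt x t.1) < t.2}

theorem eq_of_bits {K : Type} [TopologicalSpace K] {pt : Om → ℕ → K} {g g' : Cp K} {x : Om}
    (h : bits pt g x = bits pt g' x) (i : ℕ) : g.1 (pt x i) = g'.1 (pt x i) := by
  have key : ∀ r : ℚ, g.1 (pt x i) < r ↔ g'.1 (pt x i) < r := by
    intro r
    have h1 : ∀ g : Cp K, Encodable.encode (i, r) ∈ bits pt g x ↔ g.1 (pt x i) < r := by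
      intro g
      constructor
      · rintro ⟨t, ht, hlt⟩
        rw [Encodable.encode_inj] at ht
        rw [ht] at hlt
        exact hlt
      · intro hlt
        exact ⟨(i, r), rfl, hlt⟩
    rw [← h1, ← h1, h]
  rcases lt_trichotomy (g.1 (pt x i)) (g'.1 (pt x i)) with hlt | heq | hlt
  · obtain ⟨r, hr1, hr2⟩ := exists_rat_btwn hlt
    exact absurd ((key r).mp hr1) (not_lt.mpr hr2.le)
  · exact heq
  · obtain ⟨r, hr1, hr2⟩ := exists_rat_btwn hlt
    exact absurd ((key r).mpr hr1) (not_lt.mpr hr2.le)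

theorem exists_patterns : ∃ C : ℕ → Finset ℕ, (∀ n, 0 ∈ C n) ∧
    ∀ A : Set ℕ, 0 ∈ A → ∀ k, ∃ n, k ≤ n ∧ ∀ m < k, (m ∈ C n ↔ m ∈ A) := by
  classical
  obtain ⟨f, hf⟩ := exists_surjective_nat (Finset ℕ)
  refine ⟨fun n => insert 0 (f n.unpair.1), fun n => Finset.mem_insert_self _ _, ?_⟩
  intro A hA k
  obtain ⟨j, hj⟩ := hf ((Finset.range k).filter (· ∈ A))
  refine ⟨Nat.pair j k, Nat.right_le_pair j k, fun m hm => ?_⟩
  simp only [Nat.unpair_pair, hj, Finset.mem_insert, Finset.mem_filter, Finset.mem_range]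
  constructor
  · rintro (rfl | ⟨-, h⟩)
    · exact hA
    · exact h
  · intro h
    exact Or.inr ⟨hm, h⟩

/-- Under the principle of `σ`-closed lifting every compact continuous image of `C_p(K)` is
metrizable, for every scattered compact space `K`. -/
theorem metrizable_of_lifting (h : SigmaLifting) (K : Type) [TopologicalSpace K] [CompactSpace K]
    [T2Space K] (hK : Scattered K) (Y : Type) [TopologicalSpace Y] [CompactSpace Y] [T2Space Y]
    (φ : Cp K → Y) (hφ : Continuous φ) (hs : Function.Surjective φ) :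
    TopologicalSpace.MetrizableSpace Y := by
  classical
  rcases isEmpty_or_nonempty K with hKe | hKne
  · exact metrizable_of_image φ hφ hs
  by_contra hY
  obtain ⟨pt, Z, hsurj, hcode⟩ := exists_frame K Y φ hφ hs hY
  obtain ⟨S, D, ⟨d0, hd0⟩, hrel, hext, hcl⟩ := h
    (fun α a b => ∃ g : Cp K, (∀ x < α, g ∈ Z x (x ∈ a)) ∧ ∀ x < α, b x = bits pt g x) (by
      intro a
      obtain ⟨g, hg⟩ := hsurj a
      exact ⟨bits pt g, fun α => ⟨a, bits pt g, fun x _ => Iff.rfl, fun x _ => rfl, g,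
        fun x _ => hg x, fun x _ => rfl⟩⟩)
  have hG : ∀ d : {d // d ∈ D}, ∃ g : Cp K, (∀ x < S.l d.1, g ∈ Z x (x ∈ S.p d.1)) ∧
      ∀ x < S.l d.1, S.s d.1 x = bits pt g x := by
    rintro ⟨d, hd⟩
    obtain ⟨a', b', h1, h2, g, h3, h4⟩ := hrel d hd
    refine ⟨g, fun x hx => ?_, fun x hx => ?_⟩
    · have := h3 x hx
      rwa [← propext (h1 x hx)] at this
    · rw [h2 x hx, h4 x hx]
  choose G hG1 hG2 using hG
  let B : Board K :=
    { D := {d // d ∈ D}
      ord := inferInstance
      d0 := ⟨d0, hd0⟩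
      l := fun d => S.l d.1
      p := fun d => S.p d.1
      G := G
      pt := pt
      mono := by
        intro d d' hdd'
        obtain ⟨m1, m2, m3⟩ := S.mono d.1 d'.1 hdd'
        refine ⟨m1, m2, fun x hx i => ?_⟩
        refine eq_of_bits ?_ i
        rw [← hG2 d' x (hx.trans_le m1), ← hG2 d x hx, m3 x hx]
      ext := by
        intro d α a hle heq
        obtain ⟨d', hd', h1, h2, h3⟩ := hext d.1 α a ⟨d.2, hle, heq⟩
        exact ⟨⟨d', hd'⟩, h1, h2, h3⟩
      closed := by
        intro c hc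
        obtain ⟨d, hd, h1, h2⟩ := hcl (fun n => (c n).1) ⟨fun n => (c n).2, hc⟩
        exact ⟨⟨d, hd⟩, h1, h2⟩
      code := by
        intro d x hx
        obtain ⟨N, δ, e, h1, h2, h3⟩ := hcode x _ (G d) (hG1 d x hx)
        refine ⟨N, δ, e, h1, h2, fun d' hx' hiff => h3 (G d') ?_⟩
        have := hG1 d' x hx'
        rwa [propext hiff] at this }
  obtain ⟨C, h0, hC⟩ := exists_patterns
  obtain ⟨N, δ, g, z, r, hδ, hin, hout⟩ := B.fusion C h0
  exact pattern_false hK g N δ hδ C h0 hC z r hin hout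

end Pool.Agent.L5helper89.CPS
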